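import Pool.Agent.NSep.Quad

/-!
The number of vertices of a subgraph `H` which are near an excess: a vertex of degree at least
five, an edge on no boundary, or a class of faces whose boundary has not exactly four edges.
-/

set_option autoImplicit false
set_option linter.unusedSectionVars false

open Finset

namespace Pool.Agent.NSep

variable {V F : Type} [Fintype V] [DecidableEq V] [Fintype F] [DecidableEq F]
variable {K : SimpleGraph V} (C : Cellulation K F) [DecidableRel K.Adj]
variable (H : SimpleGraph V) [DecidableRel H.Adj]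

/-- boundary of a class -/
noncomputable def bq (q : Quot (rel C H)) : Finset (Sym2 V) := bd C (cls C H q)

open Classical in
/-- vertices of the boundary of a class -/
noncomputable def vq (q : Quot (rel C H)) : Finset V :=
  univ.filter fun v => ∃ e ∈ bq C H q, v ∈ e

lemma mem_vq {q : Quot (rel C H)} {v : V} : v ∈ vq C H q ↔ ∃ e ∈ bq C H q, v ∈ e := by
  unfold vq
  simp

lemma bq_even (q : Quot (rel C H)) (x : V) :
    Even ((bq C H q).filter (fun e => x ∈ e)).card := bd_even C _ x

lemma bq_sub (q : Quot (rel C H)) : bq C H q ⊆ H.edgeFinset := cls_bd C H q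

lemma bq_two {q : Quot (rel C H)} {v : V} (hv : v ∈ vq C H q) :
    2 ≤ ((bq C H q).filter (fun e => v ∈ e)).card := by
  obtain ⟨e, he, hve⟩ := (mem_vq C H).1 hv
  have h1 : 0 < ((bq C H q).filter (fun e => v ∈ e)).card :=
    Finset.card_pos.2 ⟨e, Finset.mem_filter.2 ⟨he, hve⟩⟩
  obtain ⟨k, hk⟩ := bq_even C H q v
  omega

lemma vq_card (q : Quot (rel C H)) : (vq C H q).card ≤ (bq C H q).card := by
  have h1 : (vq C H q).card * 2 ≤ ∑ v, ((bq C H q).filter (fun e => v ∈ e)).card := by
    rw [← smul_eq_mul, ← Finset.sum_const]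
    calc ∑ v ∈ vq C H q, 2 ≤ ∑ v ∈ vq C H q, ((bq C H q).filter (fun e => v ∈ e)).card :=
          Finset.sum_le_sum (fun v hv => bq_two C H hv)
      _ ≤ _ := Finset.sum_le_sum_of_subset (Finset.subset_univ _)
  have h2 : ∑ v, ((bq C H q).filter (fun e => v ∈ e)).card = ∑ e ∈ bq C H q, 2 := by
    simp_rw [Finset.card_filter]
    rw [Finset.sum_comm]
    apply Finset.sum_congr rfl
    intro e he
    have heH := bq_sub C H q he
    induction e with
    | _ a b =>
      rw [SimpleGraph.mem_edgeFinset, SimpleGraph.mem_edgeSet] at heH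
      rw [← Finset.card_filter]
      have h3 : (Finset.univ.filter fun x => x ∈ s(a, b)) = {a, b} := by
        ext x
        simp
      rw [h3, Finset.card_pair heH.ne]
  rw [h2, Finset.sum_const, smul_eq_mul] at h1
  omega

variable [Fintype (Quot (rel C H))]

open Classical in
/-- an edge of `H` is on at most two boundaries -/
lemma edge_two (hHK : H ≤ K) {e : Sym2 V} (he : e ∈ H.edgeFinset) :
    (univ.filter fun q : Quot (rel C H) => e ∈ bq C H q).card ≤ 2 := by
  have heK : e ∈ K.edgeFinset := SimpleGraph.edgeFinset_mono hHK he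
  rw [← cnt_sum C heK, Finset.card_filter]
  calc ∑ q : Quot (rel C H), (if e ∈ bq C H q then 1 else 0)
      ≤ ∑ q : Quot (rel C H), ∑ φ ∈ cls C H q, C.cnt φ e := by
        apply Finset.sum_le_sum
        intro q _
        split_ifs with h
        · unfold bq bd at h
          rw [Finset.mem_filter] at h
          exact h.2.pos
        · exact Nat.zero_le _
    _ = ∑ φ, C.cnt φ e := by
        unfold cls
        simp_rw [Finset.sum_filter]
        rw [Finset.sum_comm]
        apply Finset.sum_congr rfl
        intro φ _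
        rw [Finset.sum_ite_eq, if_pos (Finset.mem_univ _)]

open Classical in
/-- edges of `H` on no boundary -/
noncomputable def mz : Finset (Sym2 V) :=
  H.edgeFinset.filter fun e => ∀ q : Quot (rel C H), e ∉ bq C H q

open Classical in
lemma sum_bq (hHK : H ≤ K) :
    ∑ q : Quot (rel C H), (bq C H q).card + 2 * (mz C H).card ≤ 2 * H.edgeFinset.card := by
  have h1 : ∑ q : Quot (rel C H), (bq C H q).card =
      ∑ e ∈ H.edgeFinset, (univ.filter fun q : Quot (rel C H) => e ∈ bq C H q).card := by
    simp_rw [Finset.card_filter]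
    rw [Finset.sum_comm]
    apply Finset.sum_congr rfl
    intro q _
    rw [← Finset.card_filter]
    congr 1
    ext e
    rw [Finset.mem_filter]
    exact ⟨fun h => ⟨bq_sub C H q h, h⟩, fun h => h.2⟩
  have h2 : 2 * (mz C H).card = ∑ e ∈ H.edgeFinset,
      (if ∀ q : Quot (rel C H), e ∉ bq C H q then 2 else 0) := by
    unfold mz
    rw [Finset.card_filter, Finset.mul_sum]
    apply Finset.sum_congr rfl
    intro e _
    split_ifs <;> rfl
  rw [h1, h2, ← Finset.sum_add_distrib]
  calc _ ≤ ∑ e ∈ H.edgeFinset, 2 := by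
        apply Finset.sum_le_sum
        intro e he
        split_ifs with h
        · have h3 : (univ.filter fun q : Quot (rel C H) => e ∈ bq C H q) = ∅ := by
            rw [Finset.filter_eq_empty_iff]
            intro q _
            exact h q
          rw [h3]
          simp
        · have := edge_two C H hHK he
          omega
    _ = _ := by rw [Finset.sum_const, smul_eq_mul, mul_comm]

open Classical in
/-- a vertex is on at most `deg v` boundaries -/
lemma vert_deg (hHK : H ≤ K) (v : V) :
    (univ.filter fun q : Quot (rel C H) => v ∈ vq C H q).card ≤ H.degree v := by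
  have h1 : (univ.filter fun q : Quot (rel C H) => v ∈ vq C H q).card * 2 ≤
      ∑ q : Quot (rel C H), ((bq C H q).filter (fun e => v ∈ e)).card := by
    rw [← smul_eq_mul, ← Finset.sum_const]
    calc _ ≤ ∑ q ∈ univ.filter (fun q : Quot (rel C H) => v ∈ vq C H q),
          ((bq C H q).filter (fun e => v ∈ e)).card := by
          apply Finset.sum_le_sum
          intro q hq
          rw [Finset.mem_filter] at hq
          exact bq_two C H hq.2
      _ ≤ _ := Finset.sum_le_sum_of_subset (Finset.subset_univ _)
  have h2 : ∑ q : Quot (rel C H), ((bq C H q).filter (fun e => v ∈ e)).card =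
      ∑ e ∈ H.edgeFinset.filter (fun e => v ∈ e),
        (univ.filter fun q : Quot (rel C H) => e ∈ bq C H q).card := by
    simp_rw [Finset.card_filter _ (univ : Finset (Quot (rel C H)))]
    rw [Finset.sum_comm]
    apply Finset.sum_congr rfl
    intro q _
    rw [← Finset.card_filter, Finset.filter_filter]
    congr 1
    ext e
    rw [Finset.mem_filter, Finset.mem_filter]
    exact ⟨fun h => ⟨bq_sub C H q h.1, h.2, h.1⟩, fun h => ⟨h.2.2, h.2.1⟩⟩
  have h3 : ∑ e ∈ H.edgeFinset.filter (fun e => v ∈ e),
        (univ.filter fun q : Quot (rel C H) => e ∈ bq C H q).card ≤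
      ∑ e ∈ H.edgeFinset.filter (fun e => v ∈ e), 2 := by
    apply Finset.sum_le_sum
    intro e he
    exact edge_two C H hHK (Finset.mem_filter.1 he).1
  have h4 : (H.edgeFinset.filter (fun e => v ∈ e)).card = H.degree v := by
    rw [← SimpleGraph.card_incidenceFinset_eq_degree, SimpleGraph.incidenceFinset_eq_filter]
  rw [Finset.sum_const, smul_eq_mul, h4] at h3
  omega

/-- a boundary with four edges through `u` has at most one vertex which is neither `u` nor a
neighbour of `u` -/
lemma quad_opp {q0 : Quot (rel C H)} (hb4 : (bq C H q0).card = 4) {u : V} (hu : u ∈ vq C H q0) :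
    ∃ x, vq C H q0 ⊆ insert x (insert u (H.neighborFinset u)) := by
  have hAdj : ∀ a b, s(a, b) ∈ H.edgeFinset → H.Adj a b := by
    intro a b h
    rwa [SimpleGraph.mem_edgeFinset, SimpleGraph.mem_edgeSet] at h
  obtain ⟨e, he, w, rfl⟩ := (mem_vq C H).1 hu
  obtain ⟨w', x, n1, n2, b1, b2, b3⟩ := even_quad (K := H)
    (fun e he => by
      have := bq_sub C H q0 he
      rwa [SimpleGraph.mem_edgeFinset] at this)
    (bq_even C H q0) hb4 he
  have a0 := hAdj _ _ (bq_sub C H q0 he)
  have a1 := hAdj _ _ (bq_sub C H q0 b1)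
  have a2 := hAdj _ _ (bq_sub C H q0 b2)
  have a3 := hAdj _ _ (bq_sub C H q0 b3)
  have hsub : ({x, u, w, w'} : Finset V) ⊆ vq C H q0 := by
    intro y hy
    simp only [Finset.mem_insert, Finset.mem_singleton] at hy
    rcases hy with rfl | rfl | rfl | rfl
    · exact (mem_vq C H).2 ⟨_, b2, by simp⟩
    · exact hu
    · exact (mem_vq C H).2 ⟨_, he, by simp⟩
    · exact (mem_vq C H).2 ⟨_, b1, by simp⟩
  have hc : ({x, u, w, w'} : Finset V).card = 4 := by
    rw [Finset.card_insert_of_notMem, Finset.card_insert_of_notMem, Finset.card_pair n1.symm]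
    · simp only [Finset.mem_insert, Finset.mem_singleton, not_or]
      exact ⟨a0.ne, a1.ne⟩
    · simp only [Finset.mem_insert, Finset.mem_singleton, not_or]
      exact ⟨n2, a2.ne', a3.ne'⟩
  have heq : ({x, u, w, w'} : Finset V) = vq C H q0 := by
    apply Finset.eq_of_subset_of_card_le hsub
    have := vq_card C H q0
    omega
  refine ⟨x, ?_⟩
  rw [← heq]
  intro y hy
  simp only [Finset.mem_insert, Finset.mem_singleton] at hy ⊢
  rcases hy with rfl | rfl | rfl | rfl
  · exact Or.inl rfl
  · exact Or.inr (Or.inl rfl)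
  · right; right
    rw [SimpleGraph.mem_neighborFinset]
    exact a0
  · right; right
    rw [SimpleGraph.mem_neighborFinset]
    exact a1

/-- The count of the vertices near an excess. -/
theorem bad_count (hK : K.Connected) (hHK : H ≤ K) (A : Finset V)
    (hdeg : ∀ v ∈ A, 4 ≤ H.degree v) (hout : ∀ v, v ∉ A → H.degree v = 0) (k : ℕ)
    (hD : Fintype.card V + k ≤ Module.finrank (ZMod 2) (dom H) + A.card)
    (hb : ∀ q : Quot (rel C H), 3 ≤ (bq C H q).card) :
    ∃ Bad : Finset V,
      (Bad.card : ℤ) ≤ 14 * ((univ.filter fun q : Quot (rel C H) =>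
        (bq C H q).card = 3).card : ℤ) + 44 * (1 - chi K F - (k : ℤ)) ∧
      ∀ v ∈ A, v ∉ Bad → H.degree v = 4 ∧ ∀ w, H.Adj v w → H.degree w = 4 ∧
        ∃ w' x, w' ≠ w ∧ x ≠ v ∧ H.Adj v w' ∧ H.Adj w x ∧ H.Adj w' x ∧
          H.degree w' = 4 ∧ H.degree x = 4 := by
  classical
  set B1 := A.filter (fun v => H.degree v ≠ 4) with hB1
  set B2 := (mz C H).biUnion (fun e => univ.filter (fun v => v ∈ e)) with hB2
  set B3 := (univ.filter (fun q : Quot (rel C H) => (bq C H q).card ≠ 4)).biUnion
    (fun q => vq C H q) with hB3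
  set B4 := B1.biUnion (fun u => insert u ((univ.filter (fun q : Quot (rel C H) =>
    (bq C H q).card = 4 ∧ u ∈ vq C H q)).biUnion (fun q => vq C H q))) with hB4
  set S := ∑ v ∈ A, (H.degree v - 4) with hS
  set P := ∑ q : Quot (rel C H), ((bq C H q).card - 4) with hP
  set τ := (univ.filter fun q : Quot (rel C H) => (bq C H q).card = 3).card with hτ
  -- the inequality of Euler
  have e1 := euler C hK H hHK
  rw [Nat.card_eq_fintype_card] at e1
  have e2 := sum_bq C H hHK
  have e3 : ∑ q : Quot (rel C H), (bq C H q).card + τ = 4 * Fintype.card (Quot (rel C H)) + P := by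
    rw [hτ, hP, Finset.card_filter, ← Finset.sum_add_distrib,
      show 4 * Fintype.card (Quot (rel C H)) = ∑ _q : Quot (rel C H), 4 by
        rw [Finset.sum_const, smul_eq_mul, Finset.card_univ, mul_comm], ← Finset.sum_add_distrib]
    apply Finset.sum_congr rfl
    intro q _
    have := hb q
    split_ifs <;> omega
  have e4 : 2 * H.edgeFinset.card = S + 4 * A.card := by
    rw [← SimpleGraph.sum_degrees_eq_twice_card_edges, hS,
      show 4 * A.card = ∑ _v ∈ A, 4 by rw [Finset.sum_const, smul_eq_mul, mul_comm],
      ← Finset.sum_add_distrib]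
    rw [← Finset.sum_subset (Finset.subset_univ A) (fun v _ hv => hout v hv)]
    apply Finset.sum_congr rfl
    intro v hv
    have := hdeg v hv
    omega
  have e6 : chi K F = (Fintype.card V : ℤ) - (K.edgeFinset.card : ℤ) + (Fintype.card F : ℤ) := by
    unfold chi
    rw [← SimpleGraph.coe_edgeFinset, Set.ncard_coe_finset]
  have hR : (S : ℤ) + (P : ℤ) + 2 * ((mz C H).card : ℤ) ≤
      (τ : ℤ) + 4 * (1 - chi K F - (k : ℤ)) := by
    omega
  -- the four sets
  have c2 : B2.card ≤ 2 * (mz C H).card := by
    calc B2.card ≤ ∑ e ∈ mz C H, (univ.filter (fun v => v ∈ e)).card := Finset.card_biUnion_le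
      _ ≤ ∑ e ∈ mz C H, 2 := by
          apply Finset.sum_le_sum
          intro e _
          induction e with
          | _ a b =>
            have h3 : (Finset.univ.filter fun x => x ∈ s(a, b)) = {a, b} := by
              ext x
              simp
            rw [h3]
            exact Finset.card_le_two
      _ = _ := by rw [Finset.sum_const, smul_eq_mul, mul_comm]
  have c3 : B3.card ≤ 3 * τ + 5 * P := by
    calc B3.card ≤ ∑ q ∈ univ.filter (fun q : Quot (rel C H) => (bq C H q).card ≠ 4),
          (vq C H q).card := Finset.card_biUnion_le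
      _ ≤ ∑ q ∈ univ.filter (fun q : Quot (rel C H) => (bq C H q).card ≠ 4),
          (bq C H q).card := Finset.sum_le_sum (fun q _ => vq_card C H q)
      _ = ∑ q : Quot (rel C H), (if (bq C H q).card ≠ 4 then (bq C H q).card else 0) := by
          rw [Finset.sum_filter]
      _ ≤ ∑ q : Quot (rel C H), (3 * (if (bq C H q).card = 3 then 1 else 0) +
          5 * ((bq C H q).card - 4)) := by
          apply Finset.sum_le_sum
          intro q _
          have := hb q
          split_ifs <;> omega
      _ = _ := by
          rw [Finset.sum_add_distrib, ← Finset.mul_sum, ← Finset.mul_sum, hτ, hP,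
            Finset.card_filter]
  have c4 : B4.card ≤ 11 * S := by
    have h1 : ∀ u ∈ B1, (insert u ((univ.filter (fun q : Quot (rel C H) =>
        (bq C H q).card = 4 ∧ u ∈ vq C H q)).biUnion (fun q => vq C H q))).card ≤
          11 * (H.degree u - 4) := by
      intro u hu
      rw [hB1, Finset.mem_filter] at hu
      have h2 := hdeg u hu.1
      have hx : ∀ q : Quot (rel C H), ∃ x, ((bq C H q).card = 4 ∧ u ∈ vq C H q) →
          vq C H q ⊆ insert x (insert u (H.neighborFinset u)) := by
        intro q
        by_cases hq : (bq C H q).card = 4 ∧ u ∈ vq C H q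
        · obtain ⟨x, hx⟩ := quad_opp C H hq.1 hq.2
          exact ⟨x, fun _ => hx⟩
        · exact ⟨u, fun h => absurd h hq⟩
      choose opp hopp using hx
      have h3 : insert u ((univ.filter (fun q : Quot (rel C H) =>
          (bq C H q).card = 4 ∧ u ∈ vq C H q)).biUnion (fun q => vq C H q)) ⊆
          insert u (H.neighborFinset u) ∪ (univ.filter (fun q : Quot (rel C H) =>
            (bq C H q).card = 4 ∧ u ∈ vq C H q)).image opp := by
        intro y hy
        rw [Finset.mem_insert, Finset.mem_biUnion] at hy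
        rw [Finset.mem_union]
        rcases hy with rfl | ⟨q, hq, hy⟩
        · exact Or.inl (Finset.mem_insert_self _ _)
        · have hq' := (Finset.mem_filter.1 hq).2
          have h4 := hopp q hq' hy
          rw [Finset.mem_insert] at h4
          rcases h4 with h4 | h4
          · right
            rw [Finset.mem_image]
            exact ⟨q, hq, h4.symm⟩
          · exact Or.inl h4
      have h4 : (univ.filter (fun q : Quot (rel C H) =>
        (bq C H q).card = 4 ∧ u ∈ vq C H q)).card ≤ H.degree u := by
        refine (Finset.card_le_card ?_).trans (vert_deg C H hHK u)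
        intro q hq
        rw [Finset.mem_filter] at hq ⊢
        exact ⟨hq.1, hq.2.2⟩
      have h5 := Finset.card_le_card h3
      have h6 := Finset.card_union_le (insert u (H.neighborFinset u))
        ((univ.filter (fun q : Quot (rel C H) =>
            (bq C H q).card = 4 ∧ u ∈ vq C H q)).image opp)
      have h7 := Finset.card_insert_le u (H.neighborFinset u)
      have h8 : ((univ.filter (fun q : Quot (rel C H) =>
            (bq C H q).card = 4 ∧ u ∈ vq C H q)).image opp).card ≤ _ := Finset.card_image_le
      rw [SimpleGraph.card_neighborFinset_eq_degree] at h7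
      omega
    calc B4.card ≤ ∑ u ∈ B1, (insert u ((univ.filter (fun q : Quot (rel C H) =>
        (bq C H q).card = 4 ∧ u ∈ vq C H q)).biUnion (fun q => vq C H q))).card :=
          Finset.card_biUnion_le
      _ ≤ ∑ u ∈ B1, 11 * (H.degree u - 4) := Finset.sum_le_sum h1
      _ ≤ ∑ u ∈ A, 11 * (H.degree u - 4) :=
          Finset.sum_le_sum_of_subset (Finset.filter_subset _ _)
      _ = 11 * S := by rw [hS, Finset.mul_sum]
  refine ⟨B2 ∪ B3 ∪ B4, ?_, ?_⟩
  · have h1 := Finset.card_union_le (B2 ∪ B3) B4
    have h2 := Finset.card_union_le B2 B3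
    omega
  · intro v hv hbad
    simp only [Finset.mem_union, not_or] at hbad
    obtain ⟨⟨g2, g3⟩, g4⟩ := hbad
    have g1 : v ∉ B1 := by
      intro h
      apply g4
      rw [hB4, Finset.mem_biUnion]
      exact ⟨v, h, Finset.mem_insert_self _ _⟩
    have hAdj : ∀ a b, s(a, b) ∈ H.edgeFinset → H.Adj a b := by
      intro a b h
      rwa [SimpleGraph.mem_edgeFinset, SimpleGraph.mem_edgeSet] at h
    have hv4 : H.degree v = 4 := by
      by_contra h
      exact g1 (Finset.mem_filter.2 ⟨hv, h⟩)
    refine ⟨hv4, ?_⟩
    intro w hvw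
    have hmem : s(v, w) ∈ H.edgeFinset := by
      rw [SimpleGraph.mem_edgeFinset, SimpleGraph.mem_edgeSet]
      exact hvw
    have hq : ∃ q : Quot (rel C H), s(v, w) ∈ bq C H q := by
      by_contra h
      apply g2
      rw [hB2, Finset.mem_biUnion]
      refine ⟨s(v, w), ?_, by simp⟩
      unfold mz
      rw [Finset.mem_filter]
      exact ⟨hmem, fun q hq => h ⟨q, hq⟩⟩
    obtain ⟨q, hq⟩ := hq
    have hvq : v ∈ vq C H q := (mem_vq C H).2 ⟨_, hq, by simp⟩
    have hq4 : (bq C H q).card = 4 := by
      by_contra h
      apply g3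
      rw [hB3, Finset.mem_biUnion]
      exact ⟨q, Finset.mem_filter.2 ⟨Finset.mem_univ _, h⟩, hvq⟩
    have hu4 : ∀ u ∈ vq C H q, H.degree u = 4 := by
      intro u hu
      by_contra h
      have huA : u ∈ A := by
        by_contra h1
        obtain ⟨e, he, hue⟩ := (mem_vq C H).1 hu
        obtain ⟨y, rfl⟩ := hue
        have h3 := hAdj _ _ (bq_sub C H q he)
        have h4 := hout u h1
        rw [← SimpleGraph.card_neighborFinset_eq_degree, Finset.card_eq_zero] at h4
        have h5 : y ∈ H.neighborFinset u := by
          rw [SimpleGraph.mem_neighborFinset]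
          exact h3
        rw [h4] at h5
        exact absurd h5 (Finset.notMem_empty _)
      apply g4
      rw [hB4, Finset.mem_biUnion]
      refine ⟨u, Finset.mem_filter.2 ⟨huA, h⟩, ?_⟩
      rw [Finset.mem_insert, Finset.mem_biUnion]
      exact Or.inr ⟨q, Finset.mem_filter.2 ⟨Finset.mem_univ _, hq4, hu⟩, hvq⟩
    obtain ⟨w', x, n1, n2, b1, b2, b3⟩ := even_quad (K := H)
      (fun e he => by
        have := bq_sub C H q he
        rwa [SimpleGraph.mem_edgeFinset] at this)
      (bq_even C H q) hq4 hq
    refine ⟨hu4 w ((mem_vq C H).2 ⟨_, hq, by simp⟩), w', x, n1, n2, hAdj _ _ (bq_sub C H q b1),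
      hAdj _ _ (bq_sub C H q b2), hAdj _ _ (bq_sub C H q b3),
      hu4 w' ((mem_vq C H).2 ⟨_, b1, by simp⟩), hu4 x ((mem_vq C H).2 ⟨_, b2, by simp⟩)⟩

end Pool.Agent.NSep
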