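import Pool.Agent.NSep.Sup

/-!
Sets of three points which are far apart in a connected graph: there are few of them.
-/

set_option autoImplicit false
set_option linter.unusedSectionVars false

open Finset

namespace Pool.Agent.NSep

theorem ball {V : Type} [Fintype V] [DecidableEq V] (G : SimpleGraph V) (S : Finset V)
    (hconn : ∀ u ∈ S, ∀ v ∈ S, (sub G S).Reachable u v)
    (P : Finset (Finset V)) (h3 : ∀ T ∈ P, T ⊆ S ∧ T.card = 3)
    (hfar : ∀ T ∈ P, ∀ T' ∈ P, T ≠ T' → ∀ u ∈ T, ∀ v ∈ T', ∀ w : G.Walk u v, 45 ≤ w.length) :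
    25 * P.card ≤ 25 + S.card := by
  classical
  rcases Nat.lt_or_ge 1 P.card with hP | hP
  swap
  · omega
  set B : Finset V → Finset V := fun T =>
    S.filter fun x => ∃ u ∈ T, ∃ w : (sub G S).Walk u x, w.length ≤ 22 with hB
  have hdisj : ∀ T ∈ P, ∀ T' ∈ P, T ≠ T' → Disjoint (B T) (B T') := by
    intro T hT T' hT' hne
    rw [Finset.disjoint_left]
    intro x hx hx'
    rw [hB] at hx hx'
    simp only [mem_filter] at hx hx'
    obtain ⟨-, u, hu, w, hw⟩ := hx
    obtain ⟨-, v, hv, w', hw'⟩ := hx'
    have h := hfar T hT T' hT' hne u hu v hv ((w.append w'.reverse).mapLe (sub_le G S))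
    rw [SimpleGraph.Walk.length_mapLe, SimpleGraph.Walk.length_append,
      SimpleGraph.Walk.length_reverse] at h
    omega
  have hcard : ∀ T ∈ P, 25 ≤ (B T).card := by
    intro T hT
    obtain ⟨T', hT', hne⟩ := Finset.exists_mem_ne hP T
    obtain ⟨hTS, hT3⟩ := h3 T hT
    obtain ⟨hTS', hT3'⟩ := h3 T' hT'
    obtain ⟨v, hv⟩ : T'.Nonempty := by
      rw [← Finset.card_pos]
      omega
    have hTne : T.Nonempty := by
      rw [← Finset.card_pos]
      omega
    obtain ⟨u, hu, hmin⟩ := Finset.exists_min_image T (fun u => (sub G S).dist u v) hTne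
    obtain ⟨p, hpath, hlen⟩ := (hconn u (hTS hu) v (hTS' hv)).exists_path_of_dist
    have h45 : 45 ≤ p.length := by
      have h := hfar T hT T' hT' (Ne.symm hne) u hu v hv (p.mapLe (sub_le G S))
      rwa [SimpleGraph.Walk.length_mapLe] at h
    have hinj := hpath.getVert_injOn
    -- the points number `1, …, 22` of the path
    have hS : ∀ j, 1 ≤ j → j ≤ 22 → p.getVert j ∈ S := by
      intro j h1 h2
      have h := p.adj_getVert_succ (i := j - 1) (by omega)
      rw [show j - 1 + 1 = j by omega] at h
      exact h.2.2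
    have hT' : ∀ j, 1 ≤ j → j ≤ 22 → p.getVert j ∉ T := by
      intro j h1 h2 hj
      have h := hmin _ hj
      have h' := SimpleGraph.dist_le (p.drop j)
      rw [SimpleGraph.Walk.drop_length] at h'
      omega
    have hsub : T ∪ (Finset.Icc 1 22).image (fun j => p.getVert j) ⊆ B T := by
      intro x hx
      rw [mem_union] at hx
      rw [hB]
      simp only [mem_filter]
      rcases hx with hx | hx
      · exact ⟨hTS hx, x, hx, SimpleGraph.Walk.nil, by simp⟩
      · obtain ⟨j, hj, rfl⟩ := Finset.mem_image.mp hx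
        rw [mem_Icc] at hj
        refine ⟨hS j hj.1 hj.2, u, hu, p.take j, ?_⟩
        rw [SimpleGraph.Walk.take_length]
        exact (min_le_left _ _).trans hj.2
    have hd : Disjoint T ((Finset.Icc 1 22).image (fun j => p.getVert j)) := by
      rw [Finset.disjoint_right]
      intro x hx
      obtain ⟨j, hj, rfl⟩ := Finset.mem_image.mp hx
      rw [mem_Icc] at hj
      exact hT' j hj.1 hj.2
    have himg : ((Finset.Icc 1 22).image (fun j => p.getVert j)).card = 22 := by
      rw [Finset.card_image_of_injOn]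
      · simp
      · intro i hi j hj hij
        rw [Finset.coe_Icc, Set.mem_Icc] at hi hj
        exact hinj (by rw [Set.mem_ofPred_eq]; omega) (by rw [Set.mem_ofPred_eq]; omega) hij
    calc 25 = T.card + ((Finset.Icc 1 22).image (fun j => p.getVert j)).card := by
          rw [himg, hT3]
      _ = (T ∪ (Finset.Icc 1 22).image (fun j => p.getVert j)).card :=
          (Finset.card_union_of_disjoint hd).symm
      _ ≤ (B T).card := Finset.card_le_card hsub
  have h1 : ∑ _T ∈ P, 25 ≤ ∑ T ∈ P, (B T).card := Finset.sum_le_sum hcard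
  have h2 : (P.biUnion B).card = ∑ T ∈ P, (B T).card := Finset.card_biUnion hdisj
  have h4 : (P.biUnion B).card ≤ S.card :=
    Finset.card_le_card (Finset.biUnion_subset.mpr fun T _ => Finset.filter_subset _ _)
  rw [Finset.sum_const, smul_eq_mul] at h1
  omega

end Pool.Agent.NSep
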