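import Pool.Agent.NSep.Sup

/-!
Sets of three points which are far apart in a connected graph with all degrees at least four: there
are few of them.
-/

set_option autoImplicit false
set_option linter.unusedSectionVars false

open Finset

namespace Pool.Agent.NSep

theorem ball15 {V : Type} [Fintype V] [DecidableEq V] (G : SimpleGraph V) (S : Finset V)
    (hconn : ∀ u ∈ S, ∀ v ∈ S, (sub G S).Reachable u v)
    (hdeg : ∀ v ∈ S, 4 ≤ (G.neighborSet v ∩ (S : Set V)).ncard)
    (P : Finset (Finset V)) (h3 : ∀ T ∈ P, T ⊆ S ∧ T.card = 3)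
    (hfar : ∀ T ∈ P, ∀ T' ∈ P, T ≠ T' → ∀ u ∈ T, ∀ v ∈ T', ∀ w : G.Walk u v, 15 ≤ w.length) :
    15 * P.card ≤ 15 + S.card := by
  classical
  rcases Nat.lt_or_ge 1 P.card with hP | hP
  swap
  · omega
  set B : Finset V → Finset V := fun T =>
    S.filter fun x => ∃ u ∈ T, ∃ w : (sub G S).Walk u x, w.length ≤ 7 with hB
  set N : V → Finset V := fun x => insert x (S.filter fun y => G.Adj x y) with hN
  have hN5 : ∀ x ∈ S, 5 ≤ (N x).card := by
    intro x hx
    have h := hdeg x hx
    have e : (G.neighborSet x ∩ (S : Set V)) = ((S.filter fun y => G.Adj x y : Finset V) : Set V) := by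
      ext y
      simp only [Set.mem_inter_iff, SimpleGraph.mem_neighborSet, Finset.mem_coe, Finset.coe_filter,
        Set.mem_ofPred_eq]
      exact and_comm
    rw [e, Set.ncard_coe_finset] at h
    rw [hN]
    simp only
    rw [Finset.card_insert_of_notMem (by
      rw [mem_filter]
      exact fun h => h.2.ne rfl)]
    omega
  have hNS : ∀ x ∈ S, N x ⊆ S := by
    intro x hx y hy
    rw [hN] at hy
    simp only [mem_insert, mem_filter] at hy
    rcases hy with rfl | hy
    · exact hx
    · exact hy.1
  have hNw : ∀ x ∈ S, ∀ y ∈ N x, ∃ w : (sub G S).Walk x y, w.length ≤ 1 := by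
    intro x hx y hy
    rw [hN] at hy
    simp only [mem_insert, mem_filter] at hy
    rcases hy with rfl | hy
    · exact ⟨SimpleGraph.Walk.nil, by simp⟩
    · have h : (sub G S).Adj x y := ⟨hy.2, hx, hy.1⟩
      exact ⟨h.toWalk, by simp⟩
  have hdisj : ∀ T ∈ P, ∀ T' ∈ P, T ≠ T' → Disjoint (B T) (B T') := by
    intro T hT T' hT' hne
    rw [Finset.disjoint_left]
    intro x hx hx'
    rw [hB] at hx hx'
    simp only [mem_filter] at hx hx'
    obtain ⟨-, u, hu, w, hw⟩ := hx
    obtain ⟨-, v, hv, w', hw'⟩ := hx'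
    have h := hfar T hT T' hT' hne u hu v hv ((w.append w'.reverse).mapLe (sub_le G S))
    rw [SimpleGraph.Walk.length_mapLe, SimpleGraph.Walk.length_append,
      SimpleGraph.Walk.length_reverse] at h
    omega
  have hcard : ∀ T ∈ P, 15 ≤ (B T).card := by
    intro T hT
    obtain ⟨T', hT', hne⟩ := Finset.exists_mem_ne hP T
    obtain ⟨hTS, hT3⟩ := h3 T hT
    obtain ⟨hTS', hT3'⟩ := h3 T' hT'
    obtain ⟨v, hv⟩ : T'.Nonempty := by
      rw [← Finset.card_pos]
      omega
    obtain ⟨u, hu⟩ : T.Nonempty := by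
      rw [← Finset.card_pos]
      omega
    obtain ⟨p, hpath, hlen⟩ := (hconn u (hTS hu) v (hTS' hv)).exists_path_of_dist
    have h15 : 15 ≤ p.length := by
      have h := hfar T hT T' hT' (Ne.symm hne) u hu v hv (p.mapLe (sub_le G S))
      rwa [SimpleGraph.Walk.length_mapLe] at h
    have hS : ∀ j, j ≤ 6 → p.getVert j ∈ S := by
      intro j h2
      rcases Nat.eq_zero_or_pos j with rfl | h1
      · rw [SimpleGraph.Walk.getVert_zero]
        exact hTS hu
      · have h := p.adj_getVert_succ (i := j - 1) (by omega)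
        rw [show j - 1 + 1 = j by omega] at h
        exact h.2.2
    have haux : ∀ i j, i + 3 ≤ j → j ≤ 6 → Disjoint (N (p.getVert i)) (N (p.getVert j)) := by
      intro i j hij hj
      rw [Finset.disjoint_left]
      intro y hy hy'
      obtain ⟨w, hw⟩ := hNw _ (hS i (by omega)) y hy
      obtain ⟨w', hw'⟩ := hNw _ (hS j hj) y hy'
      have h := SimpleGraph.dist_le (((p.take i).append w).append (w'.reverse.append (p.drop j)))
      rw [SimpleGraph.Walk.length_append, SimpleGraph.Walk.length_append,
        SimpleGraph.Walk.length_append, SimpleGraph.Walk.length_reverse,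
        SimpleGraph.Walk.take_length, SimpleGraph.Walk.drop_length] at h
      have h' : i ⊓ p.length ≤ i := min_le_left _ _
      omega
    have hpair : ∀ i ∈ ({0, 3, 6} : Finset ℕ), ∀ j ∈ ({0, 3, 6} : Finset ℕ), i ≠ j →
        Disjoint (N (p.getVert i)) (N (p.getVert j)) := by
      intro i hi j hj hij
      simp only [mem_insert, mem_singleton] at hi hj
      rcases Nat.lt_or_gt_of_ne hij with h | h
      · exact haux i j (by omega) (by omega)
      · exact (haux j i (by omega) (by omega)).symm
    have hsub : ({0, 3, 6} : Finset ℕ).biUnion (fun j => N (p.getVert j)) ⊆ B T := by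
      intro x hx
      rw [mem_biUnion] at hx
      obtain ⟨j, hj, hx⟩ := hx
      have hj6 : j ≤ 6 := by
        simp only [mem_insert, mem_singleton] at hj
        omega
      rw [hB]
      simp only [mem_filter]
      obtain ⟨w, hw⟩ := hNw _ (hS j hj6) x hx
      refine ⟨hNS _ (hS j hj6) hx, u, hu, (p.take j).append w, ?_⟩
      rw [SimpleGraph.Walk.length_append, SimpleGraph.Walk.take_length]
      have h' : j ⊓ p.length ≤ j := min_le_left _ _
      omega
    calc 15 = ∑ _j ∈ ({0, 3, 6} : Finset ℕ), 5 := by decide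
      _ ≤ ∑ j ∈ ({0, 3, 6} : Finset ℕ), (N (p.getVert j)).card := by
          refine Finset.sum_le_sum fun j hj => hN5 _ (hS j ?_)
          simp only [mem_insert, mem_singleton] at hj
          omega
      _ = (({0, 3, 6} : Finset ℕ).biUnion (fun j => N (p.getVert j))).card :=
          (Finset.card_biUnion hpair).symm
      _ ≤ (B T).card := Finset.card_le_card hsub
  have h1 : ∑ _T ∈ P, 15 ≤ ∑ T ∈ P, (B T).card := Finset.sum_le_sum hcard
  have h2 : (P.biUnion B).card = ∑ T ∈ P, (B T).card := Finset.card_biUnion hdisj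
  have h4 : (P.biUnion B).card ≤ S.card :=
    Finset.card_le_card (Finset.biUnion_subset.mpr fun T _ => Finset.filter_subset _ _)
  rw [Finset.sum_const, smul_eq_mul] at h1
  omega

end Pool.Agent.NSep
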