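import Mathlib

/-!
Greedy list colouring of a graph all of whose vertex sets outside `X` have a vertex with at most
three neighbours inside the set.
-/

set_option autoImplicit false

open Finset

namespace Pool.Agent.NSep

theorem lists {V : Type} [Fintype V] [DecidableEq V] (G : SimpleGraph V) (X : Finset V)
    (h : ∀ W : Finset V, W.Nonempty → Disjoint W X →
      ∃ v ∈ W, (G.neighborSet v ∩ (W : Set V)).ncard ≤ 3)
    (L : V → Finset ℕ) (hL : ∀ v, 4 ≤ (L v).card) :
    ∃ c : V → ℕ, (∀ v, c v ∈ L v) ∧ ∀ u v, u ∉ X → v ∉ X → G.Adj u v → c u ≠ c v := by
  classical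
  have key : ∀ n : ℕ, ∀ W : Finset V, W.card = n → Disjoint W X →
      ∃ c : V → ℕ, (∀ v, c v ∈ L v) ∧ ∀ u ∈ W, ∀ v ∈ W, G.Adj u v → c u ≠ c v := by
    intro n
    induction n with
    | zero =>
      intro W hW _
      have h1 : ∀ v, ∃ a, a ∈ L v := fun v => Finset.card_pos.1 (by have := hL v; omega)
      choose c hc using h1
      refine ⟨c, hc, ?_⟩
      rw [Finset.card_eq_zero] at hW
      subst hW
      intro u hu
      exact absurd hu (Finset.notMem_empty _)
    | succ n ih =>
      intro W hW hdis
      obtain ⟨v, hv, hle⟩ := h W (Finset.card_pos.1 (by omega)) hdis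
      obtain ⟨c, hc, hprop⟩ := ih (W.erase v) (by rw [Finset.card_erase_of_mem hv]; omega)
        (hdis.mono_left (Finset.erase_subset _ _))
      have h1 : ((W.filter (fun u => G.Adj v u)).image c).card < (L v).card := by
        have h2 : (W.filter (fun u => G.Adj v u)).card ≤ 3 := by
          have h3 : (G.neighborSet v ∩ (W : Set V)) =
              ((W.filter (fun u => G.Adj v u) : Finset V) : Set V) := by
            ext u
            simp [and_comm]
          rw [h3, Set.ncard_coe_finset] at hle
          exact hle
        have h3 := Finset.card_image_le (s := W.filter (fun u => G.Adj v u)) (f := c)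
        have h4 := hL v
        omega
      obtain ⟨a, ha, hna⟩ := Finset.exists_mem_notMem_of_card_lt_card h1
      refine ⟨Function.update c v a, ?_, ?_⟩
      · intro u
        by_cases huv : u = v
        · subst huv
          rw [Function.update_self]
          exact ha
        · rw [Function.update_of_ne huv]
          exact hc u
      · intro u hu w hw huw
        by_cases huv : u = v
        · subst huv
          rw [Function.update_self, Function.update_of_ne huw.ne']
          intro hac
          apply hna
          rw [Finset.mem_image]
          exact ⟨w, by rw [Finset.mem_filter]; exact ⟨hw, huw⟩, hac.symm⟩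
        · by_cases hwv : w = v
          · subst hwv
            rw [Function.update_self, Function.update_of_ne huv]
            intro hac
            apply hna
            rw [Finset.mem_image]
            exact ⟨u, by rw [Finset.mem_filter]; exact ⟨hu, huw.symm⟩, hac⟩
          · rw [Function.update_of_ne huv, Function.update_of_ne hwv]
            exact hprop u (Finset.mem_erase.2 ⟨huv, hu⟩) w (Finset.mem_erase.2 ⟨hwv, hw⟩) huw
  obtain ⟨c, hc, hprop⟩ := key _ (univ \ X) rfl Finset.sdiff_disjoint
  refine ⟨c, hc, ?_⟩
  intro u v hu hv huv
  exact hprop u (by simpa using hu) v (by simpa using hv) huv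

end Pool.Agent.NSep
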