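import Mathlib

/-!
# The degree count over the core of a graph, and colouring by degeneracy
-/

set_option autoImplicit false

namespace Pool.Agent.NSep

open Finset

theorem colour {V : Type} [Fintype V] [DecidableEq V] (G : SimpleGraph V) (X : Finset V)
    (h : ∀ W : Finset V, W.Nonempty → Disjoint W X →
      ∃ v ∈ W, (G.neighborSet v ∩ (W : Set V)).ncard ≤ 3) :
    (G.induce {v | v ∉ X}).Colorable 4 := by
  classical
  have main : ∀ n : ℕ, ∀ W : Finset V, W.card = n → Disjoint W X →
      ∃ c : V → Fin 4, ∀ u ∈ W, ∀ v ∈ W, G.Adj u v → c u ≠ c v := by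
    intro n
    induction n with
    | zero =>
      intro W hW _
      rw [Finset.card_eq_zero] at hW
      subst hW
      exact ⟨fun _ => 0, by simp⟩
    | succ n ih =>
      intro W hW hd
      have hne : W.Nonempty := by
        rw [← Finset.card_pos]; omega
      obtain ⟨v, hv, h3⟩ := h W hne hd
      obtain ⟨c, hc⟩ := ih (W.erase v) (by rw [Finset.card_erase_of_mem hv]; omega)
        (hd.mono_left (Finset.erase_subset _ _))
      have hfin : (G.neighborSet v ∩ (W : Set V)).Finite := Set.toFinite _
      set S : Finset (Fin 4) := hfin.toFinset.image c with hS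
      have hScard : S.card < 4 := by
        have h1 : S.card ≤ hfin.toFinset.card := Finset.card_image_le
        rw [← Set.ncard_eq_toFinset_card _ hfin] at h1
        omega
      obtain ⟨col, hcol⟩ : ∃ col : Fin 4, col ∉ S := by
        by_contra hcon
        push Not at hcon
        have : S = Finset.univ := Finset.eq_univ_of_forall hcon
        rw [this, Finset.card_univ, Fintype.card_fin] at hScard
        exact lt_irrefl _ hScard
      have hnb : ∀ u ∈ W, G.Adj v u → c u ≠ col := by
        intro u hu hadj heq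
        apply hcol
        rw [hS, Finset.mem_image]
        refine ⟨u, ?_, heq⟩
        rw [Set.Finite.mem_toFinset]
        exact ⟨hadj, hu⟩
      refine ⟨Function.update c v col, ?_⟩
      intro a ha b hb hab
      by_cases hav : a = v
      · subst hav
        have hba : b ≠ a := hab.ne'
        rw [Function.update_self, Function.update_of_ne hba]
        exact (hnb b hb hab).symm
      · by_cases hbv : b = v
        · subst hbv
          rw [Function.update_self, Function.update_of_ne hav]
          exact hnb a ha hab.symm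
        · rw [Function.update_of_ne hav, Function.update_of_ne hbv]
          exact hc a (Finset.mem_erase.2 ⟨hav, ha⟩) b (Finset.mem_erase.2 ⟨hbv, hb⟩) hab
  obtain ⟨c, hc⟩ := main _ (Finset.univ \ X) rfl Finset.sdiff_disjoint
  refine ⟨SimpleGraph.Coloring.mk (fun v => c v.1) ?_⟩
  intro u v huv
  have hu : u.1 ∈ Finset.univ \ X := by
    rw [Finset.mem_sdiff]; exact ⟨Finset.mem_univ _, u.2⟩
  have hv : v.1 ∈ Finset.univ \ X := by
    rw [Finset.mem_sdiff]; exact ⟨Finset.mem_univ _, v.2⟩
  exact hc _ hu _ hv huv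

theorem core {V : Type} [Fintype V] [DecidableEq V] (G : SimpleGraph V) (b : ℤ)
    (hE : ∀ H : SimpleGraph V, H ≤ G → 4 ≤ H.edgeSet.ncard → ∀ P : Finset V,
      (∀ p ∈ P, ∀ q ∈ P, H.Reachable p q → p = q) →
      2 * (H.edgeSet.ncard : ℤ) + 4 * (P.card : ℤ) ≤ 4 * (Fintype.card V : ℤ) + b) :
    ∃ X : Finset V, (X.card : ℤ) ≤ max 0 (b - 3) ∧
      ∀ W : Finset V, W.Nonempty → Disjoint W X →
        ∃ v ∈ W, (G.neighborSet v ∩ (W : Set V)).ncard ≤ 3 := by
  classical
  set Good : Finset V → Prop := fun W => ∀ v ∈ W, 4 ≤ (G.neighborSet v ∩ (W : Set V)).ncard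
    with hGood
  set W0 : Finset V := Finset.univ.filter fun v => ∃ W : Finset V, Good W ∧ v ∈ W with hW0
  have hsub : ∀ W, Good W → W ⊆ W0 := by
    intro W hW v hv
    rw [hW0, Finset.mem_filter]
    exact ⟨Finset.mem_univ _, W, hW, hv⟩
  have hbad : ∀ W : Finset V, ¬ (∃ v ∈ W, (G.neighborSet v ∩ (W : Set V)).ncard ≤ 3) → Good W := by
    intro W hW v hv
    by_contra hcon
    exact hW ⟨v, hv, by omega⟩
  have hG0 : Good W0 := by
    intro v hv
    rw [hW0, Finset.mem_filter] at hv
    obtain ⟨-, W, hW, hvW⟩ := hv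
    refine (hW v hvW).trans (Set.ncard_le_ncard ?_ (Set.toFinite _))
    exact Set.inter_subset_inter_right _ (by exact_mod_cast hsub W hW)
  by_cases hne : W0.Nonempty
  swap
  · rw [Finset.not_nonempty_iff_eq_empty] at hne
    refine ⟨∅, by simp, ?_⟩
    intro W hW _
    by_contra hcon
    have h1 := hsub W (hbad W hcon)
    rw [hne, Finset.subset_empty] at h1
    exact hW.ne_empty h1
  -- the core graph
  set H : SimpleGraph V :=
    { Adj := fun u v => G.Adj u v ∧ u ∈ W0 ∧ v ∈ W0
      symm := ⟨fun u v h => ⟨h.1.symm, h.2.2, h.2.1⟩⟩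
      loopless := ⟨fun u h => G.loopless.irrefl u h.1⟩ } with hH
  have hAdj : ∀ u v, H.Adj u v ↔ G.Adj u v ∧ u ∈ W0 ∧ v ∈ W0 := fun u v => Iff.rfl
  have hHG : H ≤ G := fun u v h => h.1
  have hdeg : ∀ v, H.degree v = (H.neighborSet v).ncard := by
    intro v
    rw [Set.ncard_eq_toFinset_card', ← SimpleGraph.card_neighborFinset_eq_degree]
    congr 1
  have hnb : ∀ v ∈ W0, H.neighborSet v = G.neighborSet v ∩ (W0 : Set V) := by
    intro v hv
    ext u
    simp only [SimpleGraph.mem_neighborSet, hAdj, Set.mem_inter_iff, Finset.mem_coe]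
    tauto
  have hdeg4 : ∀ v ∈ W0, 4 ≤ H.degree v := by
    intro v hv
    rw [hdeg, hnb v hv]
    exact hG0 v hv
  have hdeg0 : ∀ v, v ∉ W0 → H.degree v = 0 := by
    intro v hv
    rw [hdeg]
    have : H.neighborSet v = ∅ := by
      ext u
      simp only [SimpleGraph.mem_neighborSet, hAdj, Set.mem_empty_iff_false, iff_false]
      tauto
    rw [this, Set.ncard_empty]
  have hedge : H.edgeSet.ncard = H.edgeFinset.card := by
    rw [Set.ncard_eq_toFinset_card']
    congr 1
  have hsum : ∑ v ∈ W0, H.degree v = 2 * H.edgeFinset.card := by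
    rw [← H.sum_degrees_eq_twice_card_edges]
    refine Finset.sum_subset (Finset.subset_univ _) fun v _ hv => hdeg0 v hv
  have h4 : 4 ≤ H.edgeSet.ncard := by
    obtain ⟨v, hv⟩ := hne
    rw [hedge]
    refine (hdeg4 v hv).trans ?_
    rw [← SimpleGraph.card_incidenceFinset_eq_degree]
    exact Finset.card_le_card (H.incidenceFinset_subset v)
  -- isolated vertices
  have hiso : ∀ p q, p ∉ W0 → H.Reachable p q → p = q := by
    rintro p q hp ⟨w⟩
    cases w with
    | nil => rfl
    | cons h _ => exact absurd h.2.1 hp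
  -- representatives of the 4-regular components
  set rep : V → V := fun v => Quot.out (H.connectedComponentMk v) with hrep
  have hrep1 : ∀ v, H.Reachable (rep v) v := by
    intro v
    have h1 : H.connectedComponentMk (rep v) = H.connectedComponentMk v :=
      Quot.out_eq (H.connectedComponentMk v)
    exact SimpleGraph.ConnectedComponent.exact h1
  have hrep2 : ∀ u v, H.Reachable u v → rep u = rep v := by
    intro u v huv
    have h1 : H.connectedComponentMk u = H.connectedComponentMk v :=
      SimpleGraph.ConnectedComponent.sound huv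
    simp only [hrep, h1]
  set T : Finset V := Finset.univ.filter fun v => ∀ u, H.Reachable v u → H.degree u = 4 with hT
  set R : Finset V := T.image rep with hR
  have hTW : ∀ v ∈ T, v ∈ W0 := by
    intro v hv
    by_contra hcon
    rw [hT, Finset.mem_filter] at hv
    have h1 := hv.2 v (SimpleGraph.Reachable.refl v)
    rw [hdeg0 v hcon] at h1
    omega
  have hRT : ∀ r ∈ R, r ∈ T := by
    intro r hr
    rw [hR, Finset.mem_image] at hr
    obtain ⟨v, hv, rfl⟩ := hr
    rw [hT, Finset.mem_filter] at hv ⊢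
    exact ⟨Finset.mem_univ _, fun u hu => hv.2 u ((hrep1 v).symm.trans hu)⟩
  have hRW : ∀ r ∈ R, r ∈ W0 := fun r hr => hTW r (hRT r hr)
  have hRR : ∀ p ∈ R, ∀ q ∈ R, H.Reachable p q → p = q := by
    intro p hp q hq hpq
    rw [hR, Finset.mem_image] at hp hq
    obtain ⟨u, hu, rfl⟩ := hp
    obtain ⟨v, hv, rfl⟩ := hq
    exact hrep2 u v (((hrep1 u).symm.trans hpq).trans (hrep1 v))
  obtain ⟨R', hR'W, hR'R, hR'1, hR'c⟩ : ∃ R' : Finset V, (∀ r ∈ R', r ∈ W0) ∧
      (∀ p ∈ R', ∀ q ∈ R', H.Reachable p q → p = q) ∧ 1 ≤ R'.card ∧ R.card ≤ R'.card := by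
    by_cases hRe : R.Nonempty
    · exact ⟨R, hRW, hRR, Finset.card_pos.2 hRe, le_rfl⟩
    · obtain ⟨w, hw⟩ := hne
      rw [Finset.not_nonempty_iff_eq_empty] at hRe
      refine ⟨{w}, ?_, ?_, by simp, by rw [hRe]; simp⟩
      · intro r hr
        rw [Finset.mem_singleton] at hr
        rw [hr]; exact hw
      · intro p hp q hq _
        rw [Finset.mem_singleton] at hp hq
        rw [hp, hq]
  set P : Finset V := (Finset.univ \ W0) ∪ R' with hP
  have hPcard : (P.card : ℤ) = Fintype.card V - W0.card + R'.card := by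
    have hdisj : Disjoint (Finset.univ \ W0) R' := by
      rw [Finset.disjoint_left]
      intro x hx hx'
      exact (Finset.mem_sdiff.1 hx).2 (hR'W x hx')
    rw [hP, Finset.card_union_of_disjoint hdisj, Finset.card_sdiff_of_subset (Finset.subset_univ _),
      Finset.card_univ]
    have := Finset.card_le_univ W0
    push_cast [Nat.cast_sub this]
    ring
  have hPr : ∀ p ∈ P, ∀ q ∈ P, H.Reachable p q → p = q := by
    intro p hp q hq hpq
    rw [hP, Finset.mem_union, Finset.mem_sdiff] at hp hq
    rcases hp with hp | hp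
    · exact hiso p q hp.2 hpq
    · rcases hq with hq | hq
      · exact (hiso q p hq.2 hpq.symm).symm
      · exact hR'R p hp q hq hpq
  have key := hE H hHG h4 P hPr
  set D : Finset V := W0.filter fun v => 5 ≤ H.degree v with hD
  have hDc : 4 * W0.card + D.card ≤ ∑ v ∈ W0, H.degree v := by
    have h1 : ∑ v ∈ W0, (4 + if 5 ≤ H.degree v then 1 else 0) ≤ ∑ v ∈ W0, H.degree v := by
      refine Finset.sum_le_sum fun v hv => ?_
      have := hdeg4 v hv
      split_ifs <;> omega
    rw [Finset.sum_add_distrib, Finset.sum_const, smul_eq_mul, ← Finset.card_filter] at h1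
    rw [hD]
    linarith
  have hDb : (D.card : ℤ) ≤ b - 4 * R'.card := by
    rw [hedge, hPcard] at key
    rw [hsum] at hDc
    have h1 : (4 : ℤ) * W0.card + D.card ≤ 2 * H.edgeFinset.card := by exact_mod_cast hDc
    linarith
  refine ⟨D ∪ R, ?_, ?_⟩
  · refine le_trans ?_ (le_max_right _ _)
    have h1 : ((D ∪ R).card : ℤ) ≤ D.card + R.card := by exact_mod_cast Finset.card_union_le _ _
    have h2 : (R.card : ℤ) ≤ R'.card := by exact_mod_cast hR'c
    have h3 : (1 : ℤ) ≤ R'.card := by exact_mod_cast hR'1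
    linarith
  · intro W hW hWd
    by_contra hcon
    have hWg := hbad W hcon
    have hWs := hsub W hWg
    have hWs' : (W : Set V) ⊆ (W0 : Set V) := by exact_mod_cast hWs
    have hcl : ∀ v ∈ W, H.degree v = 4 ∧ ∀ u, H.Adj v u → u ∈ W := by
      intro v hv
      have hv0 := hWs hv
      have hvD : v ∉ D := fun hx => Finset.disjoint_left.1 hWd hv (Finset.mem_union_left _ hx)
      have h5 : H.degree v ≤ 4 := by
        by_contra h6
        exact hvD (Finset.mem_filter.2 ⟨hv0, by omega⟩)
      have h7 := hWg v hv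
      have hinc : G.neighborSet v ∩ (W : Set V) ⊆ G.neighborSet v ∩ (W0 : Set V) :=
        Set.inter_subset_inter_right _ hWs'
      have h8 : (G.neighborSet v ∩ (W0 : Set V)).ncard ≤ 4 := by
        rw [← hnb v hv0, ← hdeg]; exact h5
      have heq : G.neighborSet v ∩ (W : Set V) = G.neighborSet v ∩ (W0 : Set V) :=
        Set.eq_of_subset_of_ncard_le hinc (h8.trans h7) (Set.toFinite _)
      refine ⟨le_antisymm h5 (hdeg4 v hv0), ?_⟩
      intro u hu
      have h9 : u ∈ G.neighborSet v ∩ (W0 : Set V) := ⟨hu.1, hu.2.2⟩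
      rw [← heq] at h9
      exact h9.2
    have hreach : ∀ v ∈ W, ∀ u, H.Reachable v u → u ∈ W := by
      rintro v hv u ⟨w⟩
      induction w with
      | nil => exact hv
      | cons h _ ih => exact ih ((hcl _ hv).2 _ h)
    obtain ⟨v, hv⟩ := hW
    have hvT : v ∈ T := by
      rw [hT, Finset.mem_filter]
      exact ⟨Finset.mem_univ _, fun u hu => (hcl u (hreach v hv u hu)).1⟩
    have h1 : rep v ∈ R := Finset.mem_image_of_mem rep hvT
    have h2 : rep v ∈ W := hreach v hv _ (hrep1 v).symm
    exact Finset.disjoint_left.1 hWd h2 (Finset.mem_union_right _ h1)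

end Pool.Agent.NSep
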