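import Mathlib

/-!
Vertex-critical sets.
-/

set_option autoImplicit false

namespace Pool.Agent.NSep

/-- vertex critical: not 4-colourable, all proper subsets are -/
def Crit {V : Type} (G : SimpleGraph V) (S : Finset V) : Prop :=
  ¬ (G.induce {v | v ∈ S}).Colorable 4 ∧
    ∀ S' : Finset V, S' ⊂ S → (G.induce {v | v ∈ S'}).Colorable 4

end Pool.Agent.NSep
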