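import Mathlib

/-!
Cell decompositions of closed surfaces, combinatorially: a graph `K` and closed walks which
traverse every edge exactly twice.
-/

set_option autoImplicit false
set_option linter.unusedSectionVars false

open Finset

namespace Pool.Agent.NSep

variable {V F : Type} [Fintype V] [DecidableEq V] [Fintype F] [DecidableEq F]

/-- A cell decomposition of a closed surface with 1-skeleton `K` and set of faces `F`: every face
is a disc glued in along a closed walk of `K`, and every edge is traversed exactly twice; the
surface is connected. -/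
structure Cellulation (K : SimpleGraph V) (F : Type) [Fintype F] where
  /-- base point of the boundary walk of a face -/
  base : F → V
  /-- the boundary walk of a face -/
  walk : ∀ φ : F, K.Walk (base φ) (base φ)
  /-- every edge is traversed exactly twice -/
  twice : ∀ e ∈ K.edgeSet, ∑ φ : F, (walk φ).edges.count e = 2
  /-- the surface is connected: no other set of faces has empty boundary modulo two -/
  conn : ∀ S : Finset F, S.Nonempty →
    (∀ e ∈ K.edgeSet, Even (∑ φ ∈ S, (walk φ).edges.count e)) → S = Finset.univ

/-- The Euler characteristic `|V| - |E| + |F|`. -/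
noncomputable def chi (K : SimpleGraph V) (F : Type) [Fintype F] : ℤ :=
  (Fintype.card V : ℤ) - (K.edgeSet.ncard : ℤ) + (Fintype.card F : ℤ)

/-- `S` is a side of the triple of vertices `T`: the edges of `K` with both ends in `T` are
exactly those which are traversed an odd number of times by the boundaries of the faces of `S`. -/
def Cellulation.Side {K : SimpleGraph V} (C : Cellulation K F) (T : Finset V)
    (S : Finset F) : Prop :=
  ∀ e ∈ K.edgeSet, (Odd (∑ φ ∈ S, (C.walk φ).edges.count e) ↔ ∀ v ∈ e, v ∈ T)

/-- a set of triangles of `G` which have pairwise disjoint sides -/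
def Cellulation.Packing {K : SimpleGraph V} (C : Cellulation K F) (G : SimpleGraph V)
    (P : Finset (Finset V)) : Prop :=
  ∃ S : Finset V → Finset F, (∀ T ∈ P, G.IsNClique 3 T ∧ C.Side T (S T)) ∧
    ∀ T ∈ P, ∀ T' ∈ P, T ≠ T' → Disjoint (S T) (S T')

variable {K : SimpleGraph V} (C : Cellulation K F)

/-- how often the walk of `φ` traverses `e` -/
def Cellulation.cnt (φ : F) (e : Sym2 V) : ℕ := (C.walk φ).edges.count e

section parity

variable [DecidableRel K.Adj]

lemma walk_parity (x : V) {u v : V} (w : K.Walk u v) :
    Even ((∑ e ∈ K.edgeFinset.filter (fun e => x ∈ e), w.edges.count e) +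
      (if x = u then 1 else 0) + (if x = v then 1 else 0)) := by
  induction w with
  | nil =>
    simp only [SimpleGraph.Walk.edges_nil, List.count_nil, Finset.sum_const_zero, zero_add]
    exact ⟨_, rfl⟩
  | @cons u v' v h w ih =>
    have h1 : (∑ e ∈ K.edgeFinset.filter (fun e => x ∈ e),
        (SimpleGraph.Walk.cons h w).edges.count e) =
        (∑ e ∈ K.edgeFinset.filter (fun e => x ∈ e), w.edges.count e) +
          (if x = u then 1 else 0) + (if x = v' then 1 else 0) := by
      have h2 : ∀ e ∈ K.edgeFinset.filter (fun e => x ∈ e),
          (SimpleGraph.Walk.cons h w).edges.count e =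
            w.edges.count e + (if s(u, v') = e then 1 else 0) := by
        intro e _
        rw [SimpleGraph.Walk.edges_cons, List.count_cons]
        simp
      rw [Finset.sum_congr rfl h2, Finset.sum_add_distrib, add_assoc]
      congr 1
      rw [Finset.sum_ite_eq]
      have hne := h.ne
      by_cases hxu : x = u
      · subst hxu
        have : x ≠ v' := hne
        simp [this, h]
      · by_cases hxv : x = v'
        · subst hxv
          simp [hxu, h]
        · simp [hxu, hxv]
    rw [h1]
    obtain ⟨k, hk⟩ := ih
    exact ⟨k + (if x = u then 1 else 0), by omega⟩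

lemma cnt_parity (φ : F) (x : V) :
    Even (∑ e ∈ K.edgeFinset.filter (fun e => x ∈ e), C.cnt φ e) := by
  have h := walk_parity x (C.walk φ)
  unfold Cellulation.cnt
  obtain ⟨k, hk⟩ := h
  by_cases hx : x = C.base φ
  · rw [if_pos hx] at hk
    exact ⟨k - 1, by omega⟩
  · rw [if_neg hx] at hk
    exact ⟨k, by omega⟩

lemma cnt_sum {e : Sym2 V} (he : e ∈ K.edgeFinset) : ∑ φ, C.cnt φ e = 2 :=
  C.twice e (by simpa using he)

end parity

end Pool.Agent.NSep
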