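import Pool.Agent.NSep.Rank

/-!
The classes of faces which are joined outside a subgraph `H`: their boundaries modulo two are
even sets of edges of `H`, hence have at least four edges unless they are null-homologous
triangles.
-/

set_option autoImplicit false
set_option linter.unusedSectionVars false

open Finset

namespace Pool.Agent.NSep

variable {V F : Type} [Fintype V] [DecidableEq V] [Fintype F] [DecidableEq F]
variable {K : SimpleGraph V} (C : Cellulation K F) [DecidableRel K.Adj]

/-- boundary modulo two of a set of faces -/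
def bd (S : Finset F) : Finset (Sym2 V) :=
  K.edgeFinset.filter fun e => Odd (∑ φ ∈ S, C.cnt φ e)

lemma bd_even (S : Finset F) (x : V) : Even ((bd C S).filter (fun e => x ∈ e)).card := by
  have h : Even (∑ e ∈ K.edgeFinset.filter (fun e => x ∈ e), ∑ φ ∈ S, C.cnt φ e) := by
    rw [Finset.sum_comm]
    exact Finset.even_sum _ (fun φ _ => cnt_parity C φ x)
  rw [Finset.even_sum_iff_even_card_odd] at h
  have h1 : (bd C S).filter (fun e => x ∈ e) =
      (K.edgeFinset.filter (fun e => x ∈ e)).filter (fun e => Odd (∑ φ ∈ S, C.cnt φ e)) := by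
    unfold bd
    rw [Finset.filter_filter, Finset.filter_filter]
    apply Finset.filter_congr
    intro e _
    exact and_comm
  rw [h1]
  exact h

lemma bd_nonempty {S : Finset F} (h1 : S.Nonempty) (h2 : S ≠ univ) : (bd C S).Nonempty := by
  by_contra h
  rw [Finset.not_nonempty_iff_eq_empty] at h
  apply h2
  apply C.conn S h1
  intro e he
  by_contra h3
  rw [Nat.not_even_iff_odd] at h3
  have h4 : e ∈ bd C S := by
    unfold bd
    rw [Finset.mem_filter]
    exact ⟨by simpa using he, h3⟩
  rw [h] at h4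
  exact absurd h4 (Finset.notMem_empty _)

omit [Fintype V] [DecidableRel K.Adj] in
lemma even_set {B : Finset (Sym2 V)} (hB : ∀ e ∈ B, e ∈ K.edgeSet)
    (heven : ∀ x, Even (B.filter (fun e => x ∈ e)).card) (hne : B.Nonempty) :
    3 ≤ B.card ∧ (B.card = 3 → ∃ T : Finset V, T.card = 3 ∧
      (∀ u ∈ T, ∀ v ∈ T, u ≠ v → s(u, v) ∈ B) ∧
      ∀ e ∈ K.edgeSet, (e ∈ B ↔ ∀ v ∈ e, v ∈ T)) := by
  have hother : ∀ a b, s(a, b) ∈ B → ∃ c, s(a, c) ∈ B ∧ c ≠ b := by
    intro a b hab
    have h1 : 0 < (B.filter (fun e => a ∈ e)).card :=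
      Finset.card_pos.2 ⟨s(a, b), by simp [hab]⟩
    have h2 : 1 < (B.filter (fun e => a ∈ e)).card := by
      obtain ⟨k, hk⟩ := heven a
      omega
    obtain ⟨e, he, hne⟩ := Finset.exists_mem_ne h2 s(a, b)
    rw [Finset.mem_filter] at he
    obtain ⟨c, rfl⟩ := he.2
    refine ⟨c, he.1, ?_⟩
    rintro rfl
    exact hne rfl
  have hloop : ∀ a b, s(a, b) ∈ B → a ≠ b := by
    intro a b h
    have := hB _ h
    rw [SimpleGraph.mem_edgeSet] at this
    exact this.ne
  obtain ⟨e0, he0⟩ := hne
  induction e0 with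
  | _ a b =>
    obtain ⟨c, hc, hcb⟩ := hother a b he0
    obtain ⟨d, hd, hda⟩ := hother b a (by rw [Sym2.eq_swap]; exact he0)
    have hab := hloop _ _ he0
    have hac := hloop _ _ hc
    have hbd := hloop _ _ hd
    have hsub : ({s(a, b), s(a, c), s(b, d)} : Finset (Sym2 V)) ⊆ B := by
      intro e he
      simp only [Finset.mem_insert, Finset.mem_singleton] at he
      rcases he with rfl | rfl | rfl <;> assumption
    have hcard : ({s(a, b), s(a, c), s(b, d)} : Finset (Sym2 V)).card = 3 := by
      rw [Finset.card_eq_three]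
      refine ⟨_, _, _, ?_, ?_, ?_, rfl⟩
      · intro h
        rw [Sym2.eq_iff] at h
        rcases h with ⟨_, h⟩ | ⟨h, h'⟩
        · exact hcb h.symm
        · exact hab h'.symm
      · intro h
        rw [Sym2.eq_iff] at h
        rcases h with ⟨h, _⟩ | ⟨h, h'⟩
        · exact hab h
        · exact hda h.symm
      · intro h
        rw [Sym2.eq_iff] at h
        rcases h with ⟨h, _⟩ | ⟨h, h'⟩
        · exact hab h
        · exact hda h.symm
    refine ⟨hcard ▸ Finset.card_le_card hsub, fun h3 => ?_⟩
    have hB3 : ({s(a, b), s(a, c), s(b, d)} : Finset (Sym2 V)) = B :=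
      Finset.eq_of_subset_of_card_le hsub (by omega)
    have hcd : c = d := by
      obtain ⟨x, hx, hxa⟩ := hother c a (by rw [Sym2.eq_swap]; exact hc)
      rw [← hB3] at hx
      simp only [Finset.mem_insert, Finset.mem_singleton] at hx
      rcases hx with hx | hx | hx
      · rw [Sym2.eq_iff] at hx
        rcases hx with ⟨h, _⟩ | ⟨h, _⟩
        · exact absurd h.symm hac
        · exact absurd h hcb
      · rw [Sym2.eq_iff] at hx
        rcases hx with ⟨h, _⟩ | ⟨_, h⟩
        · exact absurd h.symm hac
        · exact absurd h hxa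
      · rw [Sym2.eq_iff] at hx
        rcases hx with ⟨h, _⟩ | ⟨h, _⟩
        · exact absurd h hcb
        · exact h
    subst hcd
    refine ⟨{a, b, c}, ?_, ?_, ?_⟩
    · rw [Finset.card_eq_three]
      exact ⟨a, b, c, hab, hac, hbd, rfl⟩
    · intro u hu v hv huv
      rw [← hB3]
      simp only [Finset.mem_insert, Finset.mem_singleton] at hu hv ⊢
      rcases hu with rfl | rfl | rfl <;> rcases hv with rfl | rfl | rfl <;>
        simp_all
    · intro e he
      constructor
      · intro h v hv
        rw [← hB3] at h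
        simp only [Finset.mem_insert, Finset.mem_singleton] at h ⊢
        rcases h with rfl | rfl | rfl <;> rw [Sym2.mem_iff] at hv <;> tauto
      · intro h
        induction e with
        | _ u v =>
          rw [SimpleGraph.mem_edgeSet] at he
          have huv := he.ne
          have hu := h u (by simp)
          have hv := h v (by simp)
          rw [← hB3]
          simp only [Finset.mem_insert, Finset.mem_singleton] at hu hv ⊢
          rcases hu with rfl | rfl | rfl <;> rcases hv with rfl | rfl | rfl <;>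
            simp_all

open Classical in
/-- the faces of a class -/
noncomputable def cls (H : SimpleGraph V) [DecidableRel H.Adj] (q : Quot (rel C H)) : Finset F :=
  univ.filter fun φ => Quot.mk (rel C H) φ = q

lemma mem_cls {H : SimpleGraph V} [DecidableRel H.Adj] {q : Quot (rel C H)} {φ : F} :
    φ ∈ cls C H q ↔ Quot.mk (rel C H) φ = q := by
  unfold cls
  simp

lemma cls_bd (H : SimpleGraph V) [DecidableRel H.Adj] (q : Quot (rel C H)) :
    bd C (cls C H q) ⊆ H.edgeFinset := by
  intro e he
  unfold bd at he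
  rw [Finset.mem_filter] at he
  obtain ⟨heK, hodd⟩ := he
  by_contra heH
  have hmem : e ∈ K.edgeFinset \ H.edgeFinset := Finset.mem_sdiff.2 ⟨heK, heH⟩
  by_cases h : ∃ φ ∈ cls C H q, 0 < C.cnt φ e
  · obtain ⟨φ, hφ, hpos⟩ := h
    rw [mem_cls] at hφ
    have h1 : ∑ ψ ∈ cls C H q, C.cnt ψ e = ∑ ψ, C.cnt ψ e := by
      apply Finset.sum_subset (Finset.subset_univ _)
      intro ψ _ hψ
      by_contra h2
      apply hψ
      rw [mem_cls, ← hφ]
      exact Quot.sound ⟨e, hmem, Nat.pos_of_ne_zero h2, hpos⟩
    rw [h1, cnt_sum C heK] at hodd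
    exact absurd hodd (by decide)
  · have h : ∀ φ ∈ cls C H q, C.cnt φ e = 0 := by
      intro φ hφ
      by_contra h2
      exact h ⟨φ, hφ, Nat.pos_of_ne_zero h2⟩
    rw [Finset.sum_eq_zero h] at hodd
    exact absurd hodd (by decide)

theorem faces (G H : SimpleGraph V) [DecidableRel H.Adj] (hHG : H ≤ G) (hGK : G ≤ K)
    (h4 : 4 ≤ H.edgeFinset.card) (t : ℕ)
    (ht : ∀ P : Finset (Finset V), C.Packing G P → P.card ≤ t) :
    4 * Nat.card (Quot (rel C H)) ≤ 2 * H.edgeFinset.card + t := by
  classical
  have hHK : H ≤ K := hHG.trans hGK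
  have : Fintype (Quot (rel C H)) := Fintype.ofFinite _
  rw [Nat.card_eq_fintype_card]
  by_cases hn : Fintype.card (Quot (rel C H)) ≤ 2
  · omega
  have hn : 2 < Fintype.card (Quot (rel C H)) := not_le.1 hn
  -- every class is nonempty, and two classes are not everything
  have hne : ∀ q, (cls C H q).Nonempty := by
    intro q
    obtain ⟨φ, rfl⟩ := Quot.exists_rep q
    exact ⟨φ, (mem_cls C).2 rfl⟩
  have hthird : ∀ q q', cls C H q ∪ cls C H q' ≠ univ := by
    intro q q' h
    have h1 : ({q, q'} : Finset (Quot (rel C H))).card ≤ 2 := Finset.card_le_two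
    have h2 : ∃ r, r ∉ ({q, q'} : Finset (Quot (rel C H))) := by
      by_contra h3
      have h4 : ({q, q'} : Finset (Quot (rel C H))) = univ :=
        Finset.eq_univ_iff_forall.2 (fun r => by
          by_contra h5
          exact h3 ⟨r, h5⟩)
      rw [h4, Finset.card_univ] at h1
      omega
    obtain ⟨r, hr⟩ := h2
    obtain ⟨φ, hφ⟩ := hne r
    have h3 : φ ∈ cls C H q ∪ cls C H q' := by rw [h]; exact Finset.mem_univ _
    rw [mem_cls] at hφ
    rw [Finset.mem_union, mem_cls, mem_cls, hφ] at h3
    apply hr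
    simpa using h3
  have hnu : ∀ q, cls C H q ≠ univ := by
    intro q h
    exact hthird q q (by rw [Finset.union_self]; exact h)
  have hbK : ∀ q, ∀ e ∈ bd C (cls C H q), e ∈ K.edgeSet := by
    intro q e he
    unfold bd at he
    rw [Finset.mem_filter, SimpleGraph.mem_edgeFinset] at he
    exact he.1
  have heven := fun q => even_set (hbK q) (bd_even C (cls C H q)) (bd_nonempty C (hne q) (hnu q))
  -- the number of edges on the boundaries
  have hsum : ∑ q, (bd C (cls C H q)).card ≤ 2 * H.edgeFinset.card := by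
    have h1 : ∀ q, (bd C (cls C H q)).card ≤
        ∑ e ∈ H.edgeFinset, ∑ φ ∈ cls C H q, C.cnt φ e := by
      intro q
      rw [Finset.card_eq_sum_ones]
      calc ∑ e ∈ bd C (cls C H q), 1 ≤ ∑ e ∈ bd C (cls C H q), ∑ φ ∈ cls C H q, C.cnt φ e := by
            apply Finset.sum_le_sum
            intro e he
            unfold bd at he
            rw [Finset.mem_filter] at he
            exact he.2.pos
        _ ≤ _ := Finset.sum_le_sum_of_subset (cls_bd C H q)
    calc ∑ q, (bd C (cls C H q)).card
        ≤ ∑ q, ∑ e ∈ H.edgeFinset, ∑ φ ∈ cls C H q, C.cnt φ e :=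
          Finset.sum_le_sum (fun q _ => h1 q)
      _ = ∑ e ∈ H.edgeFinset, ∑ q, ∑ φ ∈ cls C H q, C.cnt φ e := Finset.sum_comm
      _ = ∑ e ∈ H.edgeFinset, 2 := by
          apply Finset.sum_congr rfl
          intro e he
          have heK : e ∈ K.edgeFinset := SimpleGraph.edgeFinset_mono hHK he
          rw [← cnt_sum C heK]
          unfold cls
          simp_rw [Finset.sum_filter]
          rw [Finset.sum_comm]
          apply Finset.sum_congr rfl
          intro φ _
          rw [Finset.sum_ite_eq, if_pos (Finset.mem_univ _)]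
      _ = 2 * H.edgeFinset.card := by rw [Finset.sum_const, smul_eq_mul, mul_comm]
  -- the classes with three boundary edges
  set Q3 := univ.filter (fun q => (bd C (cls C H q)).card = 3) with hQ3
  have hcount : 4 * Fintype.card (Quot (rel C H)) ≤ ∑ q, (bd C (cls C H q)).card + Q3.card := by
    have h1 : Q3.card = ∑ q, if (bd C (cls C H q)).card = 3 then 1 else 0 := by
      rw [hQ3, Finset.card_filter]
    rw [h1, ← Finset.sum_add_distrib]
    calc 4 * Fintype.card (Quot (rel C H)) = ∑ _q : Quot (rel C H), 4 := by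
          rw [Finset.sum_const, smul_eq_mul, Finset.card_univ, mul_comm]
      _ ≤ _ := by
          apply Finset.sum_le_sum
          intro q _
          have := (heven q).1
          split_ifs <;> omega
  have hQt : Q3.card ≤ t := by
    have h1 : ∀ q : Quot (rel C H), ∃ T : Finset V, q ∈ Q3 →
        T.card = 3 ∧ (∀ u ∈ T, ∀ v ∈ T, u ≠ v → s(u, v) ∈ bd C (cls C H q)) ∧
        ∀ e ∈ K.edgeSet, (e ∈ bd C (cls C H q) ↔ ∀ v ∈ e, v ∈ T) := by
      intro q
      by_cases hq : q ∈ Q3
      · rw [hQ3, Finset.mem_filter] at hq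
        obtain ⟨T, hT⟩ := (heven q).2 hq.2
        exact ⟨T, fun _ => hT⟩
      · exact ⟨∅, fun h => absurd h hq⟩
    choose T hT using h1
    have hdisj : ∀ q q', q ≠ q' → Disjoint (cls C H q) (cls C H q') := by
      intro q q' hqq
      rw [Finset.disjoint_left]
      intro φ h1 h2
      rw [mem_cls] at h1 h2
      exact hqq (h1.symm.trans h2)
    have hodd : ∀ q, ∀ e ∈ K.edgeSet,
        (Odd (∑ φ ∈ cls C H q, (C.walk φ).edges.count e) ↔ e ∈ bd C (cls C H q)) := by
      intro q e he
      unfold bd
      rw [Finset.mem_filter, SimpleGraph.mem_edgeFinset]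
      exact ⟨fun h => ⟨he, h⟩, fun h => h.2⟩
    have hinj : Set.InjOn T (Q3 : Set (Quot (rel C H))) := by
      intro q hq q' hq' hqq
      by_contra hne'
      obtain ⟨_, _, t3⟩ := hT q hq
      obtain ⟨_, _, t3'⟩ := hT q' hq'
      apply hthird q q'
      apply C.conn
      · exact (hne q).mono Finset.subset_union_left
      · intro e he
        rw [Finset.sum_union (hdisj q q' hne'), Nat.even_add', hodd q e he, hodd q' e he,
          t3 e he, t3' e he, hqq]
    rw [← Finset.card_image_of_injOn hinj]
    apply ht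
    refine ⟨fun T' => if h : ∃ q ∈ Q3, T q = T' then cls C H h.choose else ∅, ?_, ?_⟩
    · intro T' hT'
      rw [Finset.mem_image] at hT'
      have hspec := hT'.choose_spec
      beta_reduce
      rw [dif_pos hT']
      obtain ⟨t1, t2, t3⟩ := hT _ hspec.1
      rw [hspec.2] at t1 t2 t3
      refine ⟨?_, ?_⟩
      · rw [SimpleGraph.isNClique_iff]
        refine ⟨?_, t1⟩
        intro u hu v hv huv
        have h2 := cls_bd C H _ (t2 u hu v hv huv)
        rw [SimpleGraph.mem_edgeFinset, SimpleGraph.mem_edgeSet] at h2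
        exact hHG h2
      · intro e he
        rw [hodd _ e he]
        exact t3 e he
    · intro T1 hT1 T2 hT2 h12
      rw [Finset.mem_image] at hT1 hT2
      have hs1 := hT1.choose_spec
      have hs2 := hT2.choose_spec
      beta_reduce
      rw [dif_pos hT1, dif_pos hT2]
      apply hdisj
      intro h
      apply h12
      rw [← hs1.2, ← hs2.2, h]
  omega

/-- The counting inequality for all subgraphs. -/
theorem count (hK : K.Connected) (G : SimpleGraph V) (hGK : G ≤ K) (t : ℕ)
    (ht : ∀ P : Finset (Finset V), C.Packing G P → P.card ≤ t) (H : SimpleGraph V)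
    (hHG : H ≤ G) (h4 : 4 ≤ H.edgeSet.ncard) :
    2 * (H.edgeSet.ncard : ℤ) + 4 * (Module.finrank (ZMod 2) (dom H) : ℤ) ≤
      4 * (Fintype.card V : ℤ) + (4 - 4 * chi K F + (t : ℤ)) := by
  classical
  have hn : ∀ (J : SimpleGraph V) [DecidableRel J.Adj], J.edgeSet.ncard = J.edgeFinset.card := by
    intro J _
    rw [← SimpleGraph.coe_edgeFinset, Set.ncard_coe_finset]
  unfold chi
  rw [hn H] at h4
  rw [hn H, hn K]
  have h1 := euler C hK H (hHG.trans hGK)
  have h2 := faces C G H hHG hGK h4 t ht
  omega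

omit [Fintype F] [DecidableEq F] [DecidableRel K.Adj] in
lemma deg_sum (G : SimpleGraph V) (W : Finset V) :
    2 * (sub G W).edgeSet.ncard = ∑ v ∈ W, (G.neighborSet v ∩ (W : Set V)).ncard := by
  classical
  have h1 : (sub G W).edgeSet.ncard = (sub G W).edgeFinset.card := by
    rw [← SimpleGraph.coe_edgeFinset, Set.ncard_coe_finset]
  rw [h1, ← SimpleGraph.sum_degrees_eq_twice_card_edges]
  have h2 : ∑ v ∈ W, (sub G W).degree v = ∑ v, (sub G W).degree v := by
    apply Finset.sum_subset (Finset.subset_univ _)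
    intro v _ hv
    rw [← SimpleGraph.card_neighborFinset_eq_degree, Finset.card_eq_zero]
    ext u
    rw [SimpleGraph.mem_neighborFinset]
    simp [sub, hv]
  rw [← h2]
  apply Finset.sum_congr rfl
  intro v hv
  rw [← SimpleGraph.card_neighborFinset_eq_degree, ← Set.ncard_coe_finset]
  congr 1
  ext u
  simp only [SimpleGraph.coe_neighborFinset, SimpleGraph.mem_neighborSet, sub, Set.mem_inter_iff,
    Finset.mem_coe]
  tauto

/-- The supermodular function of `G` is bounded on the surface. -/
theorem gval_le (hK : K.Connected) (G : SimpleGraph V) (hGK : G ≤ K) (t : ℕ)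
    (ht : ∀ P : Finset (Finset V), C.Packing G P → P.card ≤ t) (A : Finset V) :
    gval G A ≤ max 0 (1 - 2 * chi K F + (t : ℤ) / 2) := by
  by_cases h4 : 4 ≤ (sub G A).edgeSet.ncard
  · have hA : A.Nonempty := by
      rw [Finset.nonempty_iff_ne_empty]
      rintro rfl
      have h1 := deg_sum G ∅
      simp at h1
      omega
    have h1 := count C hK G hGK t ht (sub G A) (sub_le G A) h4
    have h2 := dom_sub G hA
    unfold gval
    omega
  · have h1 := deg_sum G A
    have h2 : ∑ v ∈ A, (G.neighborSet v ∩ (A : Set V)).ncard ≤ A.card * (A.card - 1) := by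
      rw [← smul_eq_mul, ← Finset.sum_const]
      apply Finset.sum_le_sum
      intro v hv
      have h3 : G.neighborSet v ∩ (A : Set V) ⊆ ((A.erase v : Finset V) : Set V) := by
        rintro u ⟨h5, h6⟩
        rw [Finset.mem_coe, Finset.mem_erase]
        exact ⟨(SimpleGraph.Adj.ne h5).symm, h6⟩
      have h4 := Set.ncard_le_ncard h3 (Set.toFinite _)
      rw [Set.ncard_coe_finset, Finset.card_erase_of_mem hv] at h4
      exact h4
    have h3 := dom_le_card (sub G A)
    have h5 : (sub G A).edgeSet.ncard ≤ A.card := by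
      by_contra h6
      have h7 : A.card ≤ 2 := by omega
      have h8 : A.card * (A.card - 1) ≤ A.card * 1 := Nat.mul_le_mul_left _ (by omega)
      omega
    unfold gval
    omega

lemma gval_pos (G : SimpleGraph V) (W : Finset V) (hne : W.Nonempty)
    (hW : ∀ v ∈ W, 4 ≤ (G.neighborSet v ∩ (W : Set V)).ncard) : 0 < gval G W := by
  have h1 := deg_sum G W
  have h2 : W.card * 4 ≤ ∑ v ∈ W, (G.neighborSet v ∩ (W : Set V)).ncard := by
    rw [← smul_eq_mul, ← Finset.sum_const]
    exact Finset.sum_le_sum hW
  have h3 := dom_sub G hne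
  unfold gval
  omega

/-- **Deletion to a 3-degenerate graph.** -/
theorem degenerate (hK : K.Connected) (G : SimpleGraph V) (hGK : G ≤ K) (t : ℕ)
    (ht : ∀ P : Finset (Finset V), C.Packing G P → P.card ≤ t) :
    ∃ X : Finset V, (X.card : ℤ) ≤ max 0 (1 - 2 * chi K F + (t : ℤ) / 2) ∧
      ∀ W : Finset V, W.Nonempty → Disjoint W X →
        ∃ v ∈ W, (G.neighborSet v ∩ (W : Set V)).ncard ≤ 3 := by
  set M := max 0 (1 - 2 * chi K F + (t : ℤ) / 2) with hM
  have hM0 : 0 ≤ M := le_max_left _ _
  obtain ⟨X, hX, h⟩ := deletion (gval G)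
    (fun W => W.Nonempty ∧ ∀ v ∈ W, 4 ≤ (G.neighborSet v ∩ (W : Set V)).ncard)
    (gval_empty G) (gval_sup G) (fun W hW => gval_pos G W hW.1 hW.2) M.toNat univ
    (fun A _ => by rw [Int.toNat_of_nonneg hM0]; exact gval_le C hK G hGK t ht A)
  refine ⟨X, by omega, ?_⟩
  intro W hne hdis
  by_contra hno
  apply h W (Finset.subset_univ _) hdis
  refine ⟨hne, fun v hv => ?_⟩
  by_contra h5
  exact hno ⟨v, hv, by omega⟩

end Pool.Agent.NSep
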