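import Pool.Agent.NSep.Sup
import Pool.Agent.NSep.Crit

/-!
Vertex-critical sets are connected; a maximal family of disjoint vertex-critical sets.
-/

set_option autoImplicit false
set_option linter.unusedSectionVars false

open Finset

namespace Pool.Agent.NSep

/-- a critical set is connected -/
theorem Crit.reach {V : Type} [Fintype V] [DecidableEq V] {G : SimpleGraph V} {S : Finset V}
    (h : Crit G S) : ∀ u ∈ S, ∀ v ∈ S, (sub G S).Reachable u v := by
  classical
  intro u hu v hv
  by_contra hno
  set A : Finset V := S.filter fun x => (sub G S).Reachable u x with hA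
  set B : Finset V := S.filter fun x => ¬ (sub G S).Reachable u x with hB
  have hAS : A ⊂ S := by
    refine (Finset.filter_subset _ _).ssubset_of_mem_notMem hv ?_
    intro hvA
    exact hno (Finset.mem_filter.1 hvA).2
  have hBS : B ⊂ S := by
    refine (Finset.filter_subset _ _).ssubset_of_mem_notMem hu ?_
    intro huB
    exact (Finset.mem_filter.1 huB).2 (SimpleGraph.Reachable.refl u)
  obtain ⟨cA⟩ := h.2 A hAS
  obtain ⟨cB⟩ := h.2 B hBS
  apply h.1
  refine ⟨SimpleGraph.Coloring.mk (fun x : {x // x ∈ {v | v ∈ S}} =>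
    if hx : (sub G S).Reachable u x.1 then cA ⟨x.1, Finset.mem_filter.2 ⟨x.2, hx⟩⟩
    else cB ⟨x.1, Finset.mem_filter.2 ⟨x.2, hx⟩⟩) ?_⟩
  rintro ⟨x, hx⟩ ⟨y, hy⟩ hxy
  have hG : G.Adj x y := by simpa using hxy
  have hxS : x ∈ S := hx
  have hyS : y ∈ S := hy
  have hsub : (sub G S).Adj x y := ⟨hG, hxS, hyS⟩
  by_cases hrx : (sub G S).Reachable u x
  · have hry : (sub G S).Reachable u y := hrx.trans hsub.reachable
    simp only [hrx, hry, dif_pos]
    exact cA.valid (by simpa using hG)
  · have hry : ¬ (sub G S).Reachable u y := fun h1 => hrx (h1.trans hsub.symm.reachable)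
    simp only [hrx, hry, dif_neg, not_false_iff]
    exact cB.valid (by simpa using hG)

/-- a set whose induced subgraph is not 4-colourable contains a critical set -/
theorem exists_crit {V : Type} [Fintype V] [DecidableEq V] (G : SimpleGraph V) (W : Finset V)
    (h : ¬ (G.induce {v | v ∈ W}).Colorable 4) : ∃ S ⊆ W, Crit G S := by
  classical
  obtain ⟨S, hSW, hS⟩ := exists_minimal_le_of_wellFoundedLT
    (fun S : Finset V => ¬ (G.induce {v | v ∈ S}).Colorable 4) W h
  refine ⟨S, hSW, hS.prop, ?_⟩
  intro S' hS'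
  by_contra hno
  exact hS.not_lt hno hS'

theorem family {V : Type} [Fintype V] [DecidableEq V] (G : SimpleGraph V) (N : ℕ)
    (h : ∀ Q : Finset (Finset V), (∀ S ∈ Q, Crit G S) →
      (∀ S ∈ Q, ∀ S' ∈ Q, S ≠ S' → Disjoint S S') → ∑ S ∈ Q, S.card ≤ N) :
    ∃ X : Finset V, X.card ≤ N ∧ (G.induce {v | v ∉ X}).Colorable 4 := by
  classical
  let good : Finset (Finset (Finset V)) := Finset.univ.filter fun Q =>
    (∀ S ∈ Q, Crit G S) ∧ (∀ S ∈ Q, ∀ S' ∈ Q, S ≠ S' → Disjoint S S')
  have hne : good.Nonempty := ⟨∅, by simp [good]⟩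
  obtain ⟨Q, hQ, hmax⟩ := Finset.exists_max_image good Finset.card hne
  obtain ⟨-, hQ1, hQ2⟩ := Finset.mem_filter.1 hQ
  refine ⟨Q.biUnion id, ?_, ?_⟩
  · refine Finset.card_biUnion_le.trans ?_
    simpa using h Q hQ1 hQ2
  · by_contra hno
    set W : Finset V := Finset.univ \ Q.biUnion id with hW
    have hset : ({v | v ∉ Q.biUnion id} : Set V) = {v | v ∈ W} := by
      ext v
      simp [hW]
    rw [hset] at hno
    obtain ⟨S, hSW, hS⟩ := exists_crit G W hno
    have hSne : S.Nonempty := by
      rw [Finset.nonempty_iff_ne_empty]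
      rintro rfl
      apply hS.1
      refine ⟨SimpleGraph.Coloring.mk (fun x => absurd x.2 (by simp)) ?_⟩
      intro x
      exact absurd x.2 (by simp)
    have hdis : ∀ T ∈ Q, Disjoint S T := by
      intro T hT
      rw [Finset.disjoint_left]
      intro x hxS hxT
      have := hSW hxS
      rw [hW, Finset.mem_sdiff, Finset.mem_biUnion] at this
      exact this.2 ⟨T, hT, hxT⟩
    have hSQ : S ∉ Q := by
      intro hSQ
      obtain ⟨x, hx⟩ := hSne
      exact Finset.disjoint_left.1 (hdis S hSQ) hx hx
    have hins : insert S Q ∈ good := by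
      refine Finset.mem_filter.2 ⟨Finset.mem_univ _, ?_, ?_⟩
      · intro T hT
        rcases Finset.mem_insert.1 hT with hT1 | hT1
        · rw [hT1]; exact hS
        · exact hQ1 T hT1
      · intro T hT T' hT' hne'
        rcases Finset.mem_insert.1 hT with hT1 | hT1
        · rcases Finset.mem_insert.1 hT' with hT2 | hT2
          · exact absurd (hT1.trans hT2.symm) hne'
          · rw [hT1]; exact hdis T' hT2
        · rcases Finset.mem_insert.1 hT' with hT2 | hT2
          · rw [hT2]; exact (hdis T hT1).symm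
          · exact hQ2 T hT1 T' hT2 hne'
    have h1 := hmax _ hins
    rw [Finset.card_insert_of_notMem hSQ] at h1
    omega

end Pool.Agent.NSep
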