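import Pool.Agent.NSep.Crit

/-!
Degrees in vertex-critical sets.
-/

set_option autoImplicit false
set_option linter.unusedSectionVars false

open Finset

namespace Pool.Agent.NSep

theorem Crit.deg {V : Type} [Fintype V] [DecidableEq V] {G : SimpleGraph V} {S : Finset V}
    (h : Crit G S) {v : V} (hv : v ∈ S) : 4 ≤ (G.neighborSet v ∩ (S : Set V)).ncard := by
  classical
  by_contra hlt
  obtain ⟨c⟩ := h.2 (S.erase v) (Finset.erase_ssubset hv)
  set f : V → Fin 4 := fun u => if hu : u ∈ S.erase v then c ⟨u, hu⟩ else 0 with hf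
  have hfprop : ∀ u w, u ∈ S.erase v → w ∈ S.erase v → G.Adj u w → f u ≠ f w := by
    intro u w hu hw huw
    have h1 : f u = c ⟨u, hu⟩ := by rw [hf]; simp only; rw [dif_pos hu]
    have h2 : f w = c ⟨w, hw⟩ := by rw [hf]; simp only; rw [dif_pos hw]
    rw [h1, h2]
    exact c.valid huw
  have hN : (S.filter (fun u => G.Adj v u)).card ≤ 3 := by
    have h3 : (G.neighborSet v ∩ (S : Set V)) =
        ((S.filter (fun u => G.Adj v u) : Finset V) : Set V) := by
      ext u
      simp [and_comm]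
    rw [h3, Set.ncard_coe_finset] at hlt
    omega
  have him : ((S.filter (fun u => G.Adj v u)).image f).card < (univ : Finset (Fin 4)).card := by
    have := Finset.card_image_le (s := S.filter (fun u => G.Adj v u)) (f := f)
    rw [Finset.card_univ, Fintype.card_fin]
    omega
  obtain ⟨a, _, ha⟩ := Finset.exists_mem_notMem_of_card_lt_card him
  apply h.1
  refine ⟨SimpleGraph.Coloring.mk (fun u => if u.1 = v then a else f u.1) ?_⟩
  intro u w huw
  have huw' : G.Adj u.1 w.1 := huw
  have hfa : ∀ y, y ∈ S → G.Adj v y → f y ≠ a := by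
    intro y hy hvy hfy
    apply ha
    rw [Finset.mem_image]
    exact ⟨y, Finset.mem_filter.2 ⟨hy, hvy⟩, hfy⟩
  by_cases h1 : u.1 = v
  · have h2 : w.1 ≠ v := fun h => huw'.ne (h1.trans h.symm)
    rw [if_pos h1, if_neg h2]
    exact (hfa w.1 w.2 (h1 ▸ huw')).symm
  · by_cases h2 : w.1 = v
    · rw [if_neg h1, if_pos h2]
      exact hfa u.1 u.2 (h2 ▸ huw'.symm)
    · rw [if_neg h1, if_neg h2]
      exact hfprop _ _ (Finset.mem_erase.2 ⟨h1, u.2⟩) (Finset.mem_erase.2 ⟨h2, w.2⟩) huw'

end Pool.Agent.NSep
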