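import Pool.Agent.NSep.Crit

/-!
A vertex of degree four of a vertex critical set all of whose neighbours have degree four and lie
in a triangle of neighbours: the set is a complete graph on five vertices.
-/

set_option autoImplicit false

open Finset

namespace Pool.Agent.NSep

lemma colorable_iff_fun {V : Type} [DecidableEq V] (G : SimpleGraph V) (S : Finset V) :
    (G.induce {v | v ∈ S}).Colorable 4 ↔
      ∃ c : V → Fin 4, ∀ u ∈ S, ∀ w ∈ S, G.Adj u w → c u ≠ c w := by
  classical
  constructor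
  · rintro ⟨C⟩
    refine ⟨fun x => if hx : x ∈ S then C ⟨x, hx⟩ else 0, ?_⟩
    intro u hu w hw huw
    simp only [dif_pos hu, dif_pos hw]
    exact C.valid (show (G.induce {v | v ∈ S}).Adj ⟨u, hu⟩ ⟨w, hw⟩ from huw)
  · rintro ⟨c, hc⟩
    exact ⟨SimpleGraph.Coloring.mk (fun x => c x.1) fun {u w} huw => hc _ u.2 _ w.2 huw⟩

lemma nb_card {V : Type} [Fintype V] [DecidableEq V] (G : SimpleGraph V) (S : Finset V) (w : V)
    [DecidablePred (G.Adj w)] :
    (G.neighborSet w ∩ (S : Set V)).ncard = (S.filter (G.Adj w)).card := by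
  have : G.neighborSet w ∩ (S : Set V) = ((S.filter (G.Adj w) : Finset V) : Set V) := by
    ext u
    simp [and_comm]
  rw [this, Set.ncard_coe_finset]

lemma no_five' : ∀ a b c d e : Fin 4, ¬ (a ≠ b ∧ a ≠ c ∧ a ≠ d ∧ a ≠ e ∧ b ≠ c ∧ b ≠ d ∧
    b ≠ e ∧ c ≠ d ∧ c ≠ e ∧ d ≠ e) := by decide +kernel

lemma no_five (a b c d e : Fin 4) (h1 : a ≠ b) (h2 : a ≠ c) (h3 : a ≠ d) (h4 : a ≠ e) (h5 : b ≠ c)
    (h6 : b ≠ d) (h7 : b ≠ e) (h8 : c ≠ d) (h9 : c ≠ e) (h10 : d ≠ e) : False :=
  no_five' a b c d e ⟨h1, h2, h3, h4, h5, h6, h7, h8, h9, h10⟩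

lemma avoid_two : ∀ a b : Fin 4, ∃ α, α ≠ a ∧ α ≠ b := by decide

lemma three_left : ∀ α : Fin 4, ∃ β γ δ : Fin 4, α ≠ β ∧ α ≠ γ ∧ α ≠ δ ∧ β ≠ γ ∧ β ≠ δ ∧ γ ≠ δ := by
  decide

theorem five_aux {V : Type} [Fintype V] [DecidableEq V] {G : SimpleGraph V} {S : Finset V}
    (h : Crit G S) {v p q r s : V} (hv : v ∈ S) (hp : p ∈ S) (hq : q ∈ S) (hr : r ∈ S) (hs : s ∈ S)
    (vp : G.Adj v p) (vq : G.Adj v q) (vr : G.Adj v r) (vs : G.Adj v s) (rs : G.Adj r s)
    (rq : G.Adj r q) (sq : G.Adj s q) (pr : G.Adj p r) (ps : G.Adj p s) (hpq : p ≠ q)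
    (dv : (G.neighborSet v ∩ (S : Set V)).ncard = 4)
    (dp : (G.neighborSet p ∩ (S : Set V)).ncard = 4)
    (dq : (G.neighborSet q ∩ (S : Set V)).ncard = 4)
    (dr : (G.neighborSet r ∩ (S : Set V)).ncard = 4)
    (ds : (G.neighborSet s ∩ (S : Set V)).ncard = 4) : S.card = 5 := by
  classical
  set W : Finset V := {v, p, q, r, s} with hW
  have hWS : W ⊆ S := by
    intro x hx
    rw [hW] at hx
    simp only [mem_insert, mem_singleton] at hx
    rcases hx with rfl | rfl | rfl | rfl | rfl <;> assumption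
  have hWc : W.card = 5 := by
    rw [hW, card_insert_of_notMem, card_insert_of_notMem, card_insert_of_notMem,
      card_insert_of_notMem, card_singleton]
    · simpa using rs.ne
    · simp only [mem_insert, mem_singleton, not_or]
      exact ⟨rq.ne', sq.ne'⟩
    · simp only [mem_insert, mem_singleton, not_or]
      exact ⟨hpq, pr.ne, ps.ne⟩
    · simp only [mem_insert, mem_singleton, not_or]
      exact ⟨vp.ne, vq.ne, vr.ne, vs.ne⟩
  by_cases hadj : G.Adj p q
  · by_cases hEq : W = S
    · rw [← hEq]; exact hWc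
    · exfalso
      have h1 := h.2 W (hWS.ssubset_of_ne hEq)
      rw [colorable_iff_fun] at h1
      obtain ⟨c, hc⟩ := h1
      have mv : v ∈ W := by simp [hW]
      have mp : p ∈ W := by simp [hW]
      have mq : q ∈ W := by simp [hW]
      have mr : r ∈ W := by simp [hW]
      have ms : s ∈ W := by simp [hW]
      exact no_five (c v) (c p) (c q) (c r) (c s) (hc _ mv _ mp vp) (hc _ mv _ mq vq)
        (hc _ mv _ mr vr) (hc _ mv _ ms vs) (hc _ mp _ mq hadj) (hc _ mp _ mr pr)
        (hc _ mp _ ms ps) (hc _ mq _ mr rq.symm) (hc _ mq _ ms sq.symm) (hc _ mr _ ms rs)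
  · exfalso
    apply h.1
    rw [colorable_iff_fun]
    -- the neighbours
    rw [nb_card] at dv dp dq dr ds
    have key4 : ∀ x a b c d : V, (S.filter (G.Adj x)).card = 4 → a ∈ S → b ∈ S → c ∈ S → d ∈ S →
        G.Adj x a → G.Adj x b → G.Adj x c → G.Adj x d → a ≠ b → a ≠ c → a ≠ d → b ≠ c → b ≠ d →
        c ≠ d → ∀ u ∈ S, G.Adj x u → u = a ∨ u = b ∨ u = c ∨ u = d := by
      intro x a b c d hx ha hb hc hd xa xb xc xd ab ac ad bc bd cd u hu xu
      have h1 : ({a, b, c, d} : Finset V) ⊆ S.filter (G.Adj x) := by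
        intro y hy
        simp only [mem_insert, mem_singleton] at hy
        rw [mem_filter]
        rcases hy with rfl | rfl | rfl | rfl
        exacts [⟨ha, xa⟩, ⟨hb, xb⟩, ⟨hc, xc⟩, ⟨hd, xd⟩]
      have h2 : ({a, b, c, d} : Finset V).card = 4 := by
        rw [card_insert_of_notMem, card_insert_of_notMem, card_insert_of_notMem, card_singleton]
        · simpa using cd
        · simp only [mem_insert, mem_singleton, not_or]
          exact ⟨bc, bd⟩
        · simp only [mem_insert, mem_singleton, not_or]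
          exact ⟨ab, ac, ad⟩
      have h3 := eq_of_subset_of_card_le h1 (by rw [hx, h2])
      have h4 : u ∈ S.filter (G.Adj x) := mem_filter.2 ⟨hu, xu⟩
      rw [← h3] at h4
      simpa using h4
    have key3 : ∀ x a b c : V, (S.filter (G.Adj x)).card = 4 → a ∈ S → b ∈ S → c ∈ S →
        G.Adj x a → G.Adj x b → G.Adj x c → a ≠ b → a ≠ c → b ≠ c →
        ∃ d, ∀ u ∈ S, G.Adj x u → u = a ∨ u = b ∨ u = c ∨ u = d := by
      intro x a b c hx ha hb hc xa xb xc ab ac bc
      have h2 : ({a, b, c} : Finset V).card = 3 := by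
        rw [card_insert_of_notMem, card_insert_of_notMem, card_singleton]
        · simpa using bc
        · simp only [mem_insert, mem_singleton, not_or]
          exact ⟨ab, ac⟩
      have h1 : ∃ d ∈ S.filter (G.Adj x), d ∉ ({a, b, c} : Finset V) :=
        exists_mem_notMem_of_card_lt_card (by rw [hx, h2]; norm_num)
      obtain ⟨d, hd, hd'⟩ := h1
      rw [mem_filter] at hd
      simp only [mem_insert, mem_singleton, not_or] at hd'
      exact ⟨d, key4 x a b c d hx ha hb hc hd.1 xa xb xc hd.2 ab ac (Ne.symm hd'.1) bc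
        (Ne.symm hd'.2.1) (Ne.symm hd'.2.2)⟩
    have nv := key4 v p q r s dv hp hq hr hs vp vq vr vs hpq pr.ne ps.ne rq.ne' sq.ne' rs.ne
    have nr := key4 r v p q s dr hv hp hq hs vr.symm pr.symm rq rs vp.ne vq.ne vs.ne hpq ps.ne sq.ne'
    have ns := key4 s v p q r ds hv hp hq hr vs.symm ps.symm sq rs.symm vp.ne vq.ne vr.ne hpq pr.ne
      rq.ne'
    obtain ⟨p', np⟩ := key3 p v r s dp hv hr hs vp.symm pr ps vr.ne vs.ne rs.ne
    obtain ⟨q', nq⟩ := key3 q v r s dq hv hr hs vq.symm rq.symm sq.symm vr.ne vs.ne rs.ne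
    have hss : S \ W ⊂ S := by
      refine ssubset_of_subset_of_ne sdiff_subset fun hEq => ?_
      have : v ∈ S \ W := by rw [hEq]; exact hv
      rw [mem_sdiff] at this
      exact this.2 (by simp [hW])
    have h1 := h.2 (S \ W) hss
    rw [colorable_iff_fun] at h1
    obtain ⟨c0, hc0⟩ := h1
    obtain ⟨α, hα1, hα2⟩ := avoid_two (c0 p') (c0 q')
    obtain ⟨β, γ, δ, αβ, αγ, αδ, βγ, βδ, γδ⟩ := three_left α
    set c : V → Fin 4 := fun x => if x = p ∨ x = q then α else if x = v then β else
      if x = r then γ else if x = s then δ else c0 x with hc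
    have cp : c p = α := by simp [hc]
    have cq : c q = α := by simp [hc]
    have cv : c v = β := by simp [hc, vp.ne, vq.ne]
    have cr : c r = γ := by simp [hc, pr.ne', rq.ne, vr.ne']
    have cs : c s = δ := by simp [hc, ps.ne', sq.ne, vs.ne', rs.ne']
    have co : ∀ x, x ∉ W → c x = c0 x := by
      intro x hx
      rw [hW] at hx
      simp only [mem_insert, mem_singleton, not_or] at hx
      simp [hc, hx]
    have main : ∀ u ∈ W, ∀ w ∈ S, G.Adj u w → c u ≠ c w := by
      intro u hu w hw huw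
      rw [hW] at hu
      simp only [mem_insert, mem_singleton] at hu
      rcases hu with rfl | rfl | rfl | rfl | rfl
      · rcases nv w hw huw with rfl | rfl | rfl | rfl
        · rw [cv, cp]; exact αβ.symm
        · rw [cv, cq]; exact αβ.symm
        · rw [cv, cr]; exact βγ
        · rw [cv, cs]; exact βδ
      · by_cases hwW : w ∈ W
        · rw [hW] at hwW
          simp only [mem_insert, mem_singleton] at hwW
          rcases hwW with rfl | rfl | rfl | rfl | rfl
          · rw [cv, cp]; exact αβ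
          · exact absurd huw (G.loopless.irrefl _)
          · exact absurd huw hadj
          · rw [cp, cr]; exact αγ
          · rw [cp, cs]; exact αδ
        · have hwW' := hwW
          rw [hW] at hwW'
          simp only [mem_insert, mem_singleton, not_or] at hwW'
          rcases np w hw huw with h5 | h5 | h5 | h5
          · exact absurd h5 hwW'.1
          · exact absurd h5 hwW'.2.2.2.1
          · exact absurd h5 hwW'.2.2.2.2
          · rw [cp, co w hwW, h5]; exact hα1
      · by_cases hwW : w ∈ W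
        · rw [hW] at hwW
          simp only [mem_insert, mem_singleton] at hwW
          rcases hwW with rfl | rfl | rfl | rfl | rfl
          · rw [cv, cq]; exact αβ
          · exact absurd huw.symm hadj
          · exact absurd huw (G.loopless.irrefl _)
          · rw [cq, cr]; exact αγ
          · rw [cq, cs]; exact αδ
        · have hwW' := hwW
          rw [hW] at hwW'
          simp only [mem_insert, mem_singleton, not_or] at hwW'
          rcases nq w hw huw with h5 | h5 | h5 | h5
          · exact absurd h5 hwW'.1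
          · exact absurd h5 hwW'.2.2.2.1
          · exact absurd h5 hwW'.2.2.2.2
          · rw [cq, co w hwW, h5]; exact hα2
      · rcases nr w hw huw with rfl | rfl | rfl | rfl
        · rw [cr, cv]; exact βγ.symm
        · rw [cr, cp]; exact αγ.symm
        · rw [cr, cq]; exact αγ.symm
        · rw [cr, cs]; exact γδ
      · rcases ns w hw huw with rfl | rfl | rfl | rfl
        · rw [cs, cv]; exact βδ.symm
        · rw [cs, cp]; exact αδ.symm
        · rw [cs, cq]; exact αδ.symm
        · rw [cs, cr]; exact γδ.symm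
    refine ⟨c, ?_⟩
    intro u hu w hw huw
    by_cases huW : u ∈ W
    · exact main u huW w hw huw
    · by_cases hwW : w ∈ W
      · exact (main w hwW u hu huw.symm).symm
      · rw [co u huW, co w hwW]
        exact hc0 u (mem_sdiff.2 ⟨hu, huW⟩) w (mem_sdiff.2 ⟨hw, hwW⟩) huw

theorem Crit.five {V : Type} [Fintype V] [DecidableEq V] {G : SimpleGraph V} {S : Finset V}
    (h : Crit G S) {v : V} (hv : v ∈ S) (hv4 : (G.neighborSet v ∩ (S : Set V)).ncard = 4)
    (hN : ∀ w ∈ S, G.Adj v w → (G.neighborSet w ∩ (S : Set V)).ncard = 4 ∧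
      ∃ x ∈ S, ∃ y ∈ S, G.Adj v x ∧ G.Adj v y ∧ G.Adj w x ∧ G.Adj w y ∧ G.Adj x y) :
    S.card = 5 := by
  classical
  have hN4 : (S.filter (G.Adj v)).card = 4 := by rw [← nb_card]; exact hv4
  obtain ⟨a, ha⟩ : (S.filter (G.Adj v)).Nonempty := by
    rw [← card_pos, hN4]; norm_num
  rw [mem_filter] at ha
  obtain ⟨haS, va⟩ := ha
  obtain ⟨da, x, hx, y, hy, vx, vy, ax, ay, xy⟩ := hN a haS va
  -- the fourth neighbour
  have h3 : ({a, x, y} : Finset V).card = 3 := by
    rw [card_insert_of_notMem, card_insert_of_notMem, card_singleton]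
    · simpa using xy.ne
    · simp only [mem_insert, mem_singleton, not_or]
      exact ⟨ax.ne, ay.ne⟩
  obtain ⟨p, hp, hp'⟩ : ∃ p ∈ S.filter (G.Adj v), p ∉ ({a, x, y} : Finset V) :=
    exists_mem_notMem_of_card_lt_card (by rw [hN4, h3]; norm_num)
  rw [mem_filter] at hp
  obtain ⟨hpS, vp⟩ := hp
  simp only [mem_insert, mem_singleton, not_or] at hp'
  obtain ⟨pa, px, py⟩ := hp'
  have hall : ∀ u ∈ S, G.Adj v u → u = p ∨ u = a ∨ u = x ∨ u = y := by
    intro u hu vu
    have h1 : ({p, a, x, y} : Finset V) ⊆ S.filter (G.Adj v) := by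
      intro z hz
      simp only [mem_insert, mem_singleton] at hz
      rw [mem_filter]
      rcases hz with rfl | rfl | rfl | rfl
      exacts [⟨hpS, vp⟩, ⟨haS, va⟩, ⟨hx, vx⟩, ⟨hy, vy⟩]
    have h2 : ({p, a, x, y} : Finset V).card = 4 := by
      rw [card_insert_of_notMem, h3]
      simp only [mem_insert, mem_singleton, not_or]
      exact ⟨pa, px, py⟩
    have h4 := eq_of_subset_of_card_le h1 (by rw [hN4, h2])
    have h5 : u ∈ S.filter (G.Adj v) := mem_filter.2 ⟨hu, vu⟩
    rw [← h4] at h5
    simpa using h5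
  obtain ⟨dp, x', hx', y', hy', vx', vy', px', py', xy'⟩ := hN p hpS vp
  have dx := (hN x hx vx).1
  have dy := (hN y hy vy).1
  rcases hall x' hx' vx' with rfl | rfl | rfl | rfl
  · exact absurd px' (G.loopless.irrefl _)
  · rcases hall y' hy' vy' with rfl | rfl | rfl | rfl
    · exact absurd py' (G.loopless.irrefl _)
    · exact absurd xy' (G.loopless.irrefl _)
    · -- r = a, s = x, q = y
      exact five_aux h hv hpS hy haS hx vp vy va vx ax ay xy px' py' py hv4 dp dy da dx
    · -- r = a, s = y, q = x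
      exact five_aux h hv hpS hx haS hy vp vx va vy ay ax xy.symm px' py' px hv4 dp dx da dy
  · rcases hall y' hy' vy' with rfl | rfl | rfl | rfl
    · exact absurd py' (G.loopless.irrefl _)
    · -- r = x, s = a, q = y
      exact five_aux h hv hpS hy hx haS vp vy vx va ax.symm xy ay px' py' py hv4 dp dy dx da
    · exact absurd xy' (G.loopless.irrefl _)
    · -- r = x, s = y, q = a
      exact five_aux h hv hpS haS hx hy vp va vx vy xy ax.symm ay.symm px' py' pa hv4 dp da dx dy
  · rcases hall y' hy' vy' with rfl | rfl | rfl | rfl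
    · exact absurd py' (G.loopless.irrefl _)
    · -- r = y, s = a, q = x
      exact five_aux h hv hpS hx hy haS vp vx vy va ay.symm xy.symm ax px' py' px hv4 dp dx dy da
    · -- r = y, s = x, q = a
      exact five_aux h hv hpS haS hy hx vp va vy vx xy.symm ay.symm ax.symm px' py' pa hv4 dp da dy dx
    · exact absurd xy' (G.loopless.irrefl _)

end Pool.Agent.NSep
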