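import Pool.Agent.NSep.Crit

/-!
A 4-cycle of vertices of degree 4 in a vertex-critical not 4-colourable graph spans a `K₄`.
-/

set_option autoImplicit false
set_option linter.unusedSectionVars false

open Finset

namespace Pool.Agent.NSep

lemma k4_three : ∀ q1 q2 α : Fin 4, ∃ y, y ≠ q1 ∧ y ≠ q2 ∧ y ≠ α := by decide

set_option synthInstance.maxSize 8192 in
set_option synthInstance.maxHeartbeats 0 in
lemma k4_disj : ∀ p1 p2 r1 r2 : Fin 4, (∀ α, α = p1 ∨ α = p2 ∨ α = r1 ∨ α = r2) →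
    ∀ q1 q2 s1 s2 : Fin 4, ∃ x, (x ≠ p1 ∧ x ≠ p2) ∧ ∃ z, (z ≠ r1 ∧ z ≠ r2) ∧
      (∃ y, y ≠ q1 ∧ y ≠ q2 ∧ y ≠ x ∧ y ≠ z) ∧ (∃ t, t ≠ s1 ∧ t ≠ s2 ∧ t ≠ x ∧ t ≠ z) := by
  decide +kernel

/-- lists of two colours on a 4-cycle -/
lemma k4_cyc (p1 p2 q1 q2 r1 r2 s1 s2 : Fin 4) : ∃ x y z t : Fin 4, (x ≠ p1 ∧ x ≠ p2) ∧
    (y ≠ q1 ∧ y ≠ q2) ∧ (z ≠ r1 ∧ z ≠ r2) ∧ (t ≠ s1 ∧ t ≠ s2) ∧ x ≠ y ∧ y ≠ z ∧ z ≠ t ∧ t ≠ x := by
  by_cases hα : ∀ α, α = p1 ∨ α = p2 ∨ α = r1 ∨ α = r2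
  · obtain ⟨x, hx, z, hz, ⟨y, hy1, hy2, hy3, hy4⟩, ⟨t, ht1, ht2, ht3, ht4⟩⟩ :=
      k4_disj p1 p2 r1 r2 hα q1 q2 s1 s2
    exact ⟨x, y, z, t, hx, ⟨hy1, hy2⟩, hz, ⟨ht1, ht2⟩, hy3.symm, hy4, ht4.symm, ht3⟩
  · push Not at hα
    obtain ⟨α, h1, h2, h3, h4⟩ := hα
    obtain ⟨y, hy1, hy2, hy3⟩ := k4_three q1 q2 α
    obtain ⟨t, ht1, ht2, ht3⟩ := k4_three s1 s2 α
    exact ⟨α, y, α, t, ⟨h1, h2⟩, ⟨hy1, hy2⟩, ⟨h3, h4⟩, ⟨ht1, ht2⟩, hy3.symm, hy3, ht3.symm, ht3⟩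

set_option synthInstance.maxSize 8192 in
set_option synthInstance.maxHeartbeats 0 in
/-- lists of 2, 3, 2, 3 colours on a 4-cycle with one chord -/
lemma k4_chord : ∀ p1 p2 q r1 r2 s : Fin 4, ∃ x, (x ≠ p1 ∧ x ≠ p2) ∧ ∃ z, (z ≠ r1 ∧ z ≠ r2) ∧
    ∃ y, (y ≠ q ∧ y ≠ x ∧ y ≠ z) ∧ ∃ t, t ≠ s ∧ t ≠ x ∧ t ≠ z ∧ t ≠ y := by
  decide +kernel

lemma k4_two : ∀ K : Finset (Fin 4), K.card ≤ 2 → ∃ p1 p2, ∀ x ∈ K, x = p1 ∨ x = p2 := by
  decide +kernel

lemma k4_one : ∀ K : Finset (Fin 4), K.card ≤ 1 → ∃ p, ∀ x ∈ K, x = p := by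
  decide +kernel

lemma k4_col {V : Type} [DecidableEq V] (G : SimpleGraph V) (S : Finset V) :
    (G.induce {v | v ∈ S}).Colorable 4 ↔
      ∃ g : V → Fin 4, ∀ u ∈ S, ∀ v ∈ S, G.Adj u v → g u ≠ g v := by
  constructor
  · rintro ⟨C⟩
    refine ⟨fun v => if h : v ∈ S then C ⟨v, h⟩ else 0, fun u hu v hv huv => ?_⟩
    simp only [dif_pos hu, dif_pos hv]
    exact C.valid (by simpa using huv)
  · rintro ⟨g, hg⟩
    exact ⟨SimpleGraph.Coloring.mk (fun v => g v.1) (fun {u v} huv => hg u.1 u.2 v.1 v.2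
      (by simpa using huv))⟩

lemma k4_card {V : Type} [Fintype V] [DecidableEq V] (G : SimpleGraph V) (S : Finset V) (x : V)
    [DecidablePred fun y => G.Adj x y] :
    (G.neighborSet x ∩ (S : Set V)).ncard = (S.filter fun y => G.Adj x y).card := by
  have e : (G.neighborSet x ∩ (S : Set V)) =
      ((S.filter fun y => G.Adj x y : Finset V) : Set V) := by
    ext y
    simp only [Set.mem_inter_iff, SimpleGraph.mem_neighborSet, Finset.mem_coe, Finset.coe_filter,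
      Set.mem_ofPred_eq]
    exact and_comm
  rw [e, Set.ncard_coe_finset]

lemma k4_key {V : Type} [Fintype V] [DecidableEq V] {G : SimpleGraph V} {S : Finset V} (h : Crit G S)
    {a b c d : V} (ha : a ∈ S) (hb : b ∈ S) (hc : c ∈ S) (hd : d ∈ S) (hac : a ≠ c) (hbd : b ≠ d)
    (hab : G.Adj a b) (hbc : G.Adj b c) (hcd : G.Adj c d) (hda : G.Adj d a)
    (ha4 : (G.neighborSet a ∩ (S : Set V)).ncard = 4)
    (hb4 : (G.neighborSet b ∩ (S : Set V)).ncard = 4)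
    (hc4 : (G.neighborSet c ∩ (S : Set V)).ncard = 4)
    (hd4 : (G.neighborSet d ∩ (S : Set V)).ncard = 4) : G.Adj a c := by
  classical
  by_contra hnac
  set Q : Finset V := {a, b, c, d} with hQ
  have hQm : ∀ v, v ∈ Q ↔ v = a ∨ v = b ∨ v = c ∨ v = d := by
    intro v
    rw [hQ]
    simp only [mem_insert, mem_singleton]
  have hss : S \ Q ⊂ S := by
    rw [Finset.ssubset_iff_of_subset Finset.sdiff_subset]
    exact ⟨a, ha, by
      rw [mem_sdiff]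
      exact fun h => h.2 ((hQm a).mpr (Or.inl rfl))⟩
  obtain ⟨f, hf⟩ := (k4_col G (S \ Q)).mp (h.2 _ hss)
  rw [k4_card] at ha4 hb4 hc4 hd4
  -- the vertices outside the cycle next to one of its vertices
  have h2 : ∀ x y1 y2 : V, y1 ∈ S → y2 ∈ S → y1 ∈ Q → y2 ∈ Q → y1 ≠ y2 → G.Adj x y1 → G.Adj x y2 →
      (S.filter fun y => G.Adj x y).card = 4 →
      ∃ p1 p2, ∀ w ∈ S \ Q, G.Adj x w → f w = p1 ∨ f w = p2 := by
    intro x y1 y2 h1 h2 q1 q2 hne e1 e2 h4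
    have hsub : (S \ Q).filter (fun y => G.Adj x y) ⊆
        ((S.filter fun y => G.Adj x y).erase y1).erase y2 := by
      intro w hw
      rw [mem_filter, mem_sdiff] at hw
      rw [mem_erase, mem_erase, mem_filter]
      exact ⟨fun e => hw.1.2 (e ▸ q2), fun e => hw.1.2 (e ▸ q1), hw.1.1, hw.2⟩
    have hc := Finset.card_le_card hsub
    rw [Finset.card_erase_of_mem, Finset.card_erase_of_mem, h4] at hc
    · obtain ⟨p1, p2, hp⟩ := k4_two (((S \ Q).filter (fun y => G.Adj x y)).image f)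
        (Finset.card_image_le.trans hc)
      exact ⟨p1, p2, fun w hw hxw => hp _ (Finset.mem_image_of_mem f (mem_filter.mpr ⟨hw, hxw⟩))⟩
    · exact mem_filter.mpr ⟨h1, e1⟩
    · exact mem_erase.mpr ⟨hne.symm, mem_filter.mpr ⟨h2, e2⟩⟩
  have h3 : ∀ x y1 y2 y3 : V, y1 ∈ S → y2 ∈ S → y3 ∈ S → y1 ∈ Q → y2 ∈ Q → y3 ∈ Q → y1 ≠ y2 →
      y1 ≠ y3 → y2 ≠ y3 → G.Adj x y1 → G.Adj x y2 → G.Adj x y3 →
      (S.filter fun y => G.Adj x y).card = 4 → ∃ p, ∀ w ∈ S \ Q, G.Adj x w → f w = p := by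
    intro x y1 y2 y3 h1 h2 h3 q1 q2 q3 hne hne' hne'' e1 e2 e3 h4
    have hsub : (S \ Q).filter (fun y => G.Adj x y) ⊆
        (((S.filter fun y => G.Adj x y).erase y1).erase y2).erase y3 := by
      intro w hw
      rw [mem_filter, mem_sdiff] at hw
      rw [mem_erase, mem_erase, mem_erase, mem_filter]
      exact ⟨fun e => hw.1.2 (e ▸ q3), fun e => hw.1.2 (e ▸ q2), fun e => hw.1.2 (e ▸ q1), hw.1.1,
        hw.2⟩
    have hc := Finset.card_le_card hsub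
    rw [Finset.card_erase_of_mem, Finset.card_erase_of_mem, Finset.card_erase_of_mem, h4] at hc
    · obtain ⟨p, hp⟩ := k4_one (((S \ Q).filter (fun y => G.Adj x y)).image f)
        (Finset.card_image_le.trans hc)
      exact ⟨p, fun w hw hxw => hp _ (Finset.mem_image_of_mem f (mem_filter.mpr ⟨hw, hxw⟩))⟩
    · exact mem_filter.mpr ⟨h1, e1⟩
    · exact mem_erase.mpr ⟨hne.symm, mem_filter.mpr ⟨h2, e2⟩⟩
    · exact mem_erase.mpr ⟨hne''.symm, mem_erase.mpr ⟨hne'.symm, mem_filter.mpr ⟨h3, e3⟩⟩⟩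
  have qa : a ∈ Q := (hQm a).mpr (Or.inl rfl)
  have qb : b ∈ Q := (hQm b).mpr (Or.inr (Or.inl rfl))
  have qc : c ∈ Q := (hQm c).mpr (Or.inr (Or.inr (Or.inl rfl)))
  have qd : d ∈ Q := (hQm d).mpr (Or.inr (Or.inr (Or.inr rfl)))
  -- the colours of the cycle
  have hcol : ∃ x y z t : Fin 4, (∀ w ∈ S \ Q, G.Adj a w → f w ≠ x) ∧
      (∀ w ∈ S \ Q, G.Adj b w → f w ≠ y) ∧ (∀ w ∈ S \ Q, G.Adj c w → f w ≠ z) ∧
      (∀ w ∈ S \ Q, G.Adj d w → f w ≠ t) ∧ x ≠ y ∧ y ≠ z ∧ z ≠ t ∧ t ≠ x ∧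
      (G.Adj b d → y ≠ t) := by
    obtain ⟨p1, p2, hp⟩ := h2 a b d hb hd qb qd hbd hab hda.symm ha4
    obtain ⟨r1, r2, hr⟩ := h2 c b d hb hd qb qd hbd hbc.symm hcd hc4
    by_cases hbd' : G.Adj b d
    · obtain ⟨q, hq⟩ := h3 b a c d ha hc hd qa qc qd hac hda.ne.symm hcd.ne hab.symm hbc hbd' hb4
      obtain ⟨s, hs⟩ := h3 d a c b ha hc hb qa qc qb hac hab.ne hbc.ne.symm hda hcd.symm hbd'.symm
        hd4
      obtain ⟨x, hx, z, hz, y, hy, t, ht⟩ := k4_chord p1 p2 q r1 r2 s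
      refine ⟨x, y, z, t, fun w hw e => ?_, fun w hw e => ?_, fun w hw e => ?_, fun w hw e => ?_,
        hy.2.1.symm, hy.2.2, ht.2.2.1.symm, ht.2.1, fun _ => ht.2.2.2.symm⟩
      · rcases hp w hw e with h | h <;> rw [h]
        · exact hx.1.symm
        · exact hx.2.symm
      · rw [hq w hw e]
        exact hy.1.symm
      · rcases hr w hw e with h | h <;> rw [h]
        · exact hz.1.symm
        · exact hz.2.symm
      · rw [hs w hw e]
        exact ht.1.symm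
    · obtain ⟨q1, q2, hq⟩ := h2 b a c ha hc qa qc hac hab.symm hbc hb4
      obtain ⟨s1, s2, hs⟩ := h2 d a c ha hc qa qc hac hda hcd.symm hd4
      obtain ⟨x, y, z, t, hx, hy, hz, ht, e1, e2, e3, e4⟩ := k4_cyc p1 p2 q1 q2 r1 r2 s1 s2
      refine ⟨x, y, z, t, fun w hw e => ?_, fun w hw e => ?_, fun w hw e => ?_, fun w hw e => ?_,
        e1, e2, e3, e4, fun e => absurd e hbd'⟩
      · rcases hp w hw e with h | h <;> rw [h]
        · exact hx.1.symm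
        · exact hx.2.symm
      · rcases hq w hw e with h | h <;> rw [h]
        · exact hy.1.symm
        · exact hy.2.symm
      · rcases hr w hw e with h | h <;> rw [h]
        · exact hz.1.symm
        · exact hz.2.symm
      · rcases hs w hw e with h | h <;> rw [h]
        · exact ht.1.symm
        · exact ht.2.symm
  obtain ⟨x, y, z, t, hx, hy, hz, ht, exy, eyz, ezt, etx, eyt⟩ := hcol
  refine h.1 ((k4_col G S).mpr ⟨fun w => if w = a then x else if w = b then y else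
    if w = c then z else if w = d then t else f w, ?_⟩)
  set g : V → Fin 4 := fun w => if w = a then x else if w = b then y else
    if w = c then z else if w = d then t else f w with hg
  have ga : g a = x := by simp [hg]
  have gb : g b = y := by simp [hg, hab.ne.symm]
  have gc : g c = z := by simp [hg, hac.symm, hbc.ne.symm]
  have gd : g d = t := by simp [hg, hda.ne, hbd.symm, hcd.ne.symm]
  have go : ∀ w, w ∉ Q → g w = f w := by
    intro w hw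
    rw [hQm] at hw
    push Not at hw
    simp [hg, hw.1, hw.2.1, hw.2.2.1, hw.2.2.2]
  have main : ∀ u v, v ∈ S → u ∈ Q → G.Adj u v → g u ≠ g v := by
    intro u v hv hu huv
    by_cases hvQ : v ∈ Q
    · rw [hQm] at hu hvQ
      rcases hu with rfl | rfl | rfl | rfl <;> rcases hvQ with rfl | rfl | rfl | rfl
      · exact absurd huv (G.irrefl)
      · rw [ga, gb]; exact exy
      · exact absurd huv hnac
      · rw [ga, gd]; exact etx.symm
      · rw [ga, gb]; exact exy.symm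
      · exact absurd huv (G.irrefl)
      · rw [gb, gc]; exact eyz
      · rw [gb, gd]; exact eyt huv
      · exact absurd huv.symm hnac
      · rw [gb, gc]; exact eyz.symm
      · exact absurd huv (G.irrefl)
      · rw [gc, gd]; exact ezt
      · rw [ga, gd]; exact etx
      · rw [gb, gd]; exact (eyt huv.symm).symm
      · rw [gc, gd]; exact ezt.symm
      · exact absurd huv (G.irrefl)
    · have hv' : v ∈ S \ Q := mem_sdiff.mpr ⟨hv, hvQ⟩
      rw [go v hvQ]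
      rw [hQm] at hu
      rcases hu with rfl | rfl | rfl | rfl
      · rw [ga]; exact (hx v hv' huv).symm
      · rw [gb]; exact (hy v hv' huv).symm
      · rw [gc]; exact (hz v hv' huv).symm
      · rw [gd]; exact (ht v hv' huv).symm
  intro u hu v hv huv
  by_cases huQ : u ∈ Q
  · exact main u v hv huQ huv
  · by_cases hvQ : v ∈ Q
    · exact (main v u hu hvQ huv.symm).symm
    · have := hf u (mem_sdiff.mpr ⟨hu, huQ⟩) v (mem_sdiff.mpr ⟨hv, hvQ⟩) huv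
      show g u ≠ g v
      rwa [go u huQ, go v hvQ]

theorem Crit.k4 {V : Type} [Fintype V] [DecidableEq V] {G : SimpleGraph V} {S : Finset V}
    (h : Crit G S) {a b c d : V} (ha : a ∈ S) (hb : b ∈ S) (hc : c ∈ S) (hd : d ∈ S) (hac : a ≠ c)
    (hbd : b ≠ d) (hab : G.Adj a b) (hbc : G.Adj b c) (hcd : G.Adj c d) (hda : G.Adj d a)
    (h4 : ∀ x ∈ ({a, b, c, d} : Finset V), (G.neighborSet x ∩ (S : Set V)).ncard = 4) :
    G.Adj a c ∧ G.Adj b d := by
  have h1 := h4 a (by simp)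
  have h2 := h4 b (by simp)
  have h3 := h4 c (by simp)
  have h5 := h4 d (by simp)
  exact ⟨k4_key h ha hb hc hd hac hbd hab hbc hcd hda h1 h2 h3 h5,
    k4_key h hb hc hd ha hbd hac.symm hbc hcd hda hab h2 h3 h5 h1⟩

end Pool.Agent.NSep
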