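import Pool.Agent.NSep.Crit

/-!
A vertex of degree four of a critical set all of whose neighbours have degree four and lie in a
triangle of neighbours: the critical set has five vertices.
-/

set_option autoImplicit false
set_option linter.unusedSectionVars false

open Finset

namespace Pool.Agent.NSep

theorem five_col {V : Type} {G : SimpleGraph V} {S : Finset V} :
    (G.induce {v | v ∈ S}).Colorable 4 ↔
      ∃ c : V → Fin 4, ∀ u ∈ S, ∀ w ∈ S, G.Adj u w → c u ≠ c w := by
  classical
  constructor
  · rintro ⟨c⟩
    refine ⟨fun u => if h : u ∈ S then c ⟨u, h⟩ else 0, ?_⟩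
    intro u hu w hw huw
    simp only [hu, hw, dif_pos]
    exact c.valid (by simpa using huw)
  · rintro ⟨c, hc⟩
    refine ⟨SimpleGraph.Coloring.mk (fun x : {x // x ∈ {v | v ∈ S}} => c x.1) ?_⟩
    rintro ⟨x, hx⟩ ⟨y, hy⟩ hxy
    exact hc x hx y hy (by simpa using hxy)

theorem five_ne : ∀ a : Fin 4, a ≠ a + 1 ∧ a ≠ a + 2 ∧ a ≠ a + 3 ∧ a + 1 ≠ a + 2 ∧ a + 1 ≠ a + 3 ∧
    a + 2 ≠ a + 3 := by decide

theorem Crit.five {V : Type} [Fintype V] [DecidableEq V] {G : SimpleGraph V} {S : Finset V}
    (h : Crit G S)
    {v : V} (hv : v ∈ S) (hv4 : (G.neighborSet v ∩ (S : Set V)).ncard = 4)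
    (hN : ∀ w ∈ S, G.Adj v w → (G.neighborSet w ∩ (S : Set V)).ncard = 4 ∧
      ∃ x ∈ S, ∃ y ∈ S, G.Adj v x ∧ G.Adj v y ∧ G.Adj w x ∧ G.Adj w y ∧ G.Adj x y) :
    S.card = 5 := by
  classical
  have hD : ∀ w : V, (G.neighborSet w ∩ (S : Set V)).ncard = (S.filter fun u => G.Adj w u).card := by
    intro w
    have h3 : (G.neighborSet w ∩ (S : Set V)) =
        ((S.filter (fun u => G.Adj w u) : Finset V) : Set V) := by
      ext u
      simp [and_comm]
    rw [h3, Set.ncard_coe_finset]
  simp only [hD] at hv4 hN
  by_cases hall : ∀ p ∈ S, ∀ q ∈ S, G.Adj v p → G.Adj v q → p ≠ q → G.Adj p q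
  · -- a complete graph on five vertices
    set N : Finset V := insert v (S.filter fun u => G.Adj v u) with hNdef
    have hNc : N.card = 5 := by
      rw [hNdef, Finset.card_insert_of_notMem (by simp), hv4]
    have hNS : N ⊆ S := by
      intro u hu
      rcases Finset.mem_insert.1 hu with rfl | hu
      · exact hv
      · exact (Finset.mem_filter.1 hu).1
    rcases hNS.eq_or_ssubset with heq | hss
    · rw [← heq, hNc]
    · exfalso
      obtain ⟨c, hc⟩ := five_col.1 (h.2 N hss)
      have hinj : Set.InjOn c (N : Set V) := by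
        intro p hp q hq hpq
        by_contra hne
        refine hc p hp q hq ?_ hpq
        rcases Finset.mem_insert.1 (Finset.mem_coe.1 hp) with rfl | hp
        · rcases Finset.mem_insert.1 (Finset.mem_coe.1 hq) with rfl | hq
          · exact absurd rfl hne
          · exact (Finset.mem_filter.1 hq).2
        · rcases Finset.mem_insert.1 (Finset.mem_coe.1 hq) with rfl | hq
          · exact (Finset.mem_filter.1 hp).2.symm
          · exact hall p (Finset.mem_filter.1 hp).1 q (Finset.mem_filter.1 hq).1
              (Finset.mem_filter.1 hp).2 (Finset.mem_filter.1 hq).2 hne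
      have h5 := Finset.card_image_of_injOn hinj
      have h6 : (N.image c).card ≤ 4 := by
        simpa using Finset.card_le_univ (N.image c)
      omega
  · exfalso
    push Not at hall
    obtain ⟨p, hp, q, hq, hvp, hvq, hpq, hnpq⟩ := hall
    obtain ⟨hp4, x, hx, y, hy, hvx, hvy, hpx, hpy, hxy⟩ := hN p hp hvp
    obtain ⟨hq4, x', hx', y', hy', hvx', hvy', hqx', hqy', hxy'⟩ := hN q hq hvq
    have hxp : x ≠ p := fun e => G.irrefl (e ▸ hpx)
    have hyp : y ≠ p := fun e => G.irrefl (e ▸ hpy)
    have hxq : x ≠ q := fun e => hnpq (e ▸ hpx)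
    have hyq : y ≠ q := fun e => hnpq (e ▸ hpy)
    have hxney : x ≠ y := hxy.ne
    have hvN : (S.filter fun u => G.Adj v u) = {p, q, x, y} := by
      symm
      apply Finset.eq_of_subset_of_card_le
      · intro u hu
        simp only [Finset.mem_insert, Finset.mem_singleton] at hu
        rcases hu with rfl | rfl | rfl | rfl <;> simp [*]
      · rw [hv4, Finset.card_insert_of_notMem (by simp [hpq, hxp.symm, hyp.symm]),
          Finset.card_insert_of_notMem (by simp [hxq.symm, hyq.symm]),
          Finset.card_insert_of_notMem (by simp [hxney]), Finset.card_singleton]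
    have hvN' : ∀ w ∈ S, G.Adj v w → w = p ∨ w = q ∨ w = x ∨ w = y := by
      intro w hw hvw
      have : w ∈ (S.filter fun u => G.Adj v u) := Finset.mem_filter.2 ⟨hw, hvw⟩
      rw [hvN] at this
      simpa using this
    -- q is adjacent to x and y
    have hqN : G.Adj q x ∧ G.Adj q y := by
      have hx1 := hvN' x' hx' hvx'
      have hy1 := hvN' y' hy' hvy'
      have e1 : x' ≠ p := fun e => hnpq ((e ▸ hqx').symm)
      have e2 : x' ≠ q := fun e => G.irrefl (e ▸ hqx')
      have e3 : y' ≠ p := fun e => hnpq ((e ▸ hqy').symm)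
      have e4 : y' ≠ q := fun e => G.irrefl (e ▸ hqy')
      have e5 : x' ≠ y' := hxy'.ne
      rcases hx1 with e | e | e | e
      · exact absurd e e1
      · exact absurd e e2
      · rcases hy1 with f | f | f | f
        · exact absurd f e3
        · exact absurd f e4
        · exact absurd (e.trans f.symm) e5
        · exact ⟨e ▸ hqx', f ▸ hqy'⟩
      · rcases hy1 with f | f | f | f
        · exact absurd f e3
        · exact absurd f e4
        · exact ⟨f ▸ hqy', e ▸ hqx'⟩
        · exact absurd (e.trans f.symm) e5
    obtain ⟨hqx, hqy⟩ := hqN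
    have hvne : ∀ u, G.Adj v u → u ≠ v := fun u hu => hu.ne'
    have hxN' : ∀ w ∈ S, G.Adj x w → w = v ∨ w = p ∨ w = q ∨ w = y := by
      have hx4 := (hN x hx hvx).1
      have : (S.filter fun u => G.Adj x u) = {v, p, q, y} := by
        symm
        apply Finset.eq_of_subset_of_card_le
        · intro u hu
          simp only [Finset.mem_insert, Finset.mem_singleton] at hu
          rcases hu with rfl | rfl | rfl | rfl
          · exact Finset.mem_filter.2 ⟨hv, hvx.symm⟩
          · exact Finset.mem_filter.2 ⟨hp, hpx.symm⟩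
          · exact Finset.mem_filter.2 ⟨hq, hqx.symm⟩
          · exact Finset.mem_filter.2 ⟨hy, hxy⟩
        · rw [hx4, Finset.card_insert_of_notMem
              (by simp [hvp.ne, hvq.ne, hvy.ne]),
            Finset.card_insert_of_notMem (by simp [hpq, hyp.symm]),
            Finset.card_insert_of_notMem (by simp [hyq.symm]), Finset.card_singleton]
      intro w hw hvw
      have h1 : w ∈ (S.filter fun u => G.Adj x u) := Finset.mem_filter.2 ⟨hw, hvw⟩
      rw [this] at h1
      simpa using h1
    have hyN' : ∀ w ∈ S, G.Adj y w → w = v ∨ w = p ∨ w = q ∨ w = x := by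
      have hy4 := (hN y hy hvy).1
      have : (S.filter fun u => G.Adj y u) = {v, p, q, x} := by
        symm
        apply Finset.eq_of_subset_of_card_le
        · intro u hu
          simp only [Finset.mem_insert, Finset.mem_singleton] at hu
          rcases hu with rfl | rfl | rfl | rfl
          · exact Finset.mem_filter.2 ⟨hv, hvy.symm⟩
          · exact Finset.mem_filter.2 ⟨hp, hpy.symm⟩
          · exact Finset.mem_filter.2 ⟨hq, hqy.symm⟩
          · exact Finset.mem_filter.2 ⟨hx, hxy.symm⟩
        · rw [hy4, Finset.card_insert_of_notMem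
              (by simp [hvp.ne, hvq.ne, hvx.ne]),
            Finset.card_insert_of_notMem (by simp [hpq, hxp.symm]),
            Finset.card_insert_of_notMem (by simp [hxq.symm]), Finset.card_singleton]
      intro w hw hvw
      have h1 : w ∈ (S.filter fun u => G.Adj y u) := Finset.mem_filter.2 ⟨hw, hvw⟩
      rw [this] at h1
      simpa using h1
    -- colour the rest
    obtain ⟨c, hc⟩ := five_col.1 (h.2 (S \ {v, p, q, x, y}) (by
      refine Finset.sdiff_subset.ssubset_of_mem_notMem hv ?_
      simp))
    have hone : ∀ w : V, (S.filter fun u => G.Adj w u).card = 4 → G.Adj w v → G.Adj w x →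
        G.Adj w y → (((S.filter fun u => G.Adj w u) \ {v, x, y}).image c).card ≤ 1 := by
      intro w hw4 hwv hwx hwy
      refine Finset.card_image_le.trans ?_
      rw [Finset.card_sdiff_of_subset, hw4, Finset.card_insert_of_notMem
              (by simp [hvx.ne, hvy.ne]),
            Finset.card_insert_of_notMem (by simp [hxney]), Finset.card_singleton]
      intro u hu
      simp only [Finset.mem_insert, Finset.mem_singleton] at hu
      rcases hu with rfl | rfl | rfl
      · exact Finset.mem_filter.2 ⟨hv, hwv⟩
      · exact Finset.mem_filter.2 ⟨hx, hwx⟩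
      · exact Finset.mem_filter.2 ⟨hy, hwy⟩
    have hFp := hone p hp4 hvp.symm hpx hpy
    have hFq := hone q hq4 hvq.symm hqx hqy
    obtain ⟨a, ha⟩ : ∃ a : Fin 4, a ∉
        ((S.filter fun u => G.Adj p u) \ {v, x, y}).image c ∪
        ((S.filter fun u => G.Adj q u) \ {v, x, y}).image c := by
      by_contra hno
      push Not at hno
      have h1 := Finset.card_union_le
        (((S.filter fun u => G.Adj p u) \ {v, x, y}).image c)
        (((S.filter fun u => G.Adj q u) \ {v, x, y}).image c)
      have h2 := Finset.eq_univ_of_forall hno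
      rw [h2] at h1
      simp only [Finset.card_univ, Fintype.card_fin] at h1
      omega
    rw [Finset.notMem_union] at ha
    have hap : ∀ w ∈ S, G.Adj p w → w ≠ v → w ≠ x → w ≠ y → c w ≠ a := by
      intro w hw hpw h1 h2 h3 he
      apply ha.1
      rw [← he]
      exact Finset.mem_image_of_mem _ (by simp [hw, hpw, h1, h2, h3])
    have haq : ∀ w ∈ S, G.Adj q w → w ≠ v → w ≠ x → w ≠ y → c w ≠ a := by
      intro w hw hpw h1 h2 h3 he
      apply ha.2
      rw [← he]
      exact Finset.mem_image_of_mem _ (by simp [hw, hpw, h1, h2, h3])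
    obtain ⟨f1, f2, f3, f4, f5, f6⟩ := five_ne a
    let c' : V → Fin 4 := fun u => if u = p then a else if u = q then a else if u = v then a + 1
      else if u = x then a + 2 else if u = y then a + 3 else c u
    have cp : c' p = a := by simp [c']
    have cq : c' q = a := by simp [c']
    have cv : c' v = a + 1 := by simp [c', hvp.ne, hvq.ne]
    have cx : c' x = a + 2 := by simp [c', hxp, hxq, hvx.ne']
    have cy : c' y = a + 3 := by simp [c', hyp, hyq, hvy.ne', hxney.symm]
    have co : ∀ u, u ≠ p → u ≠ q → u ≠ v → u ≠ x → u ≠ y → c' u = c u := by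
      intro u h1 h2 h3 h4 h5
      simp [c', h1, h2, h3, h4, h5]
    have one : ∀ u, (u = p ∨ u = q ∨ u = v ∨ u = x ∨ u = y) → ∀ w ∈ S, G.Adj u w → c' u ≠ c' w := by
      intro u hu w hw huw
      rcases hu with rfl | rfl | rfl | rfl | rfl
      · rw [cp]
        by_cases g1 : w = v
        · rw [g1, cv]; exact f1
        by_cases g2 : w = x
        · rw [g2, cx]; exact f2
        by_cases g3 : w = y
        · rw [g3, cy]; exact f3
        have g4 : w ≠ q := fun e => hnpq (e ▸ huw)
        rw [co w huw.ne' g4 g1 g2 g3]
        exact (hap w hw huw g1 g2 g3).symm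
      · rw [cq]
        by_cases g1 : w = v
        · rw [g1, cv]; exact f1
        by_cases g2 : w = x
        · rw [g2, cx]; exact f2
        by_cases g3 : w = y
        · rw [g3, cy]; exact f3
        have g4 : w ≠ p := fun e => hnpq ((e ▸ huw).symm)
        rw [co w g4 huw.ne' g1 g2 g3]
        exact (haq w hw huw g1 g2 g3).symm
      · rw [cv]
        rcases hvN' w hw huw with e | e | e | e
        · rw [e, cp]; exact f1.symm
        · rw [e, cq]; exact f1.symm
        · rw [e, cx]; exact f4
        · rw [e, cy]; exact f5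
      · rw [cx]
        rcases hxN' w hw huw with e | e | e | e
        · rw [e, cv]; exact f4.symm
        · rw [e, cp]; exact f2.symm
        · rw [e, cq]; exact f2.symm
        · rw [e, cy]; exact f6
      · rw [cy]
        rcases hyN' w hw huw with e | e | e | e
        · rw [e, cv]; exact f5.symm
        · rw [e, cp]; exact f3.symm
        · rw [e, cq]; exact f3.symm
        · rw [e, cx]; exact f6.symm
    apply h.1
    rw [five_col]
    refine ⟨c', ?_⟩
    intro u hu w hw huw
    by_cases hu' : u = p ∨ u = q ∨ u = v ∨ u = x ∨ u = y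
    · exact one u hu' w hw huw
    by_cases hw' : w = p ∨ w = q ∨ w = v ∨ w = x ∨ w = y
    · exact (one w hw' u hu huw.symm).symm
    push Not at hu' hw'
    obtain ⟨a1, a2, a3, a4, a5⟩ := hu'
    obtain ⟨b1, b2, b3, b4, b5⟩ := hw'
    rw [co u a1 a2 a3 a4 a5, co w b1 b2 b3 b4 b5]
    exact hc u (by simp [hu, a1, a2, a3, a4, a5]) w (by simp [hw, b1, b2, b3, b4, b5]) huw

end Pool.Agent.NSep
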