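import Pool.Agent.NSep.Def

/-!
The complete graph with five vertices on the torus, with five quadrangular faces.
-/

set_option autoImplicit false

open Finset

namespace Pool.Agent.NSep

/-- the face `x, x + 1, x + 3, x + 2` -/
def k5walk (x : Fin 5) : (⊤ : SimpleGraph (Fin 5)).Walk x x :=
  .cons (v := x + 1) (by revert x; decide) <|
  .cons (v := x + 3) (by revert x; decide) <|
  .cons (v := x + 2) (by revert x; decide) <|
  .cons (by revert x; decide) .nil

/-- `K_5` on the torus -/
def k5 : Cellulation (⊤ : SimpleGraph (Fin 5)) (Fin 5) where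
  base := id
  walk := k5walk
  twice := by
    intro e he
    induction e with
    | _ u v =>
      rw [SimpleGraph.mem_edgeSet, SimpleGraph.top_adj] at he
      revert u v
      decide +kernel
  conn := by
    intro S hS h
    have h1 : ∀ u v : Fin 5, u ≠ v → Even (∑ φ ∈ S, (k5walk φ).edges.count s(u, v)) :=
      fun u v huv => h s(u, v) (by rw [SimpleGraph.mem_edgeSet, SimpleGraph.top_adj]; exact huv)
    clear h
    revert S
    decide +kernel

lemma k5_free (T : Finset (Fin 5)) (S : Finset (Fin 5)) :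
    ¬ ((⊤ : SimpleGraph (Fin 5)).IsNClique 3 T ∧ k5.Side T S) := by
  rintro ⟨h1, hS⟩
  have h2 : T.card = 3 := h1.card_eq
  have h3 : ∀ u v : Fin 5, u ≠ v →
      (Odd (∑ φ ∈ S, (k5walk φ).edges.count s(u, v)) ↔ (u ∈ T ∧ v ∈ T)) := by
    intro u v huv
    have h4 := hS s(u, v) (by rw [SimpleGraph.mem_edgeSet, SimpleGraph.top_adj]; exact huv)
    rw [show (∑ φ ∈ S, (k5walk φ).edges.count s(u, v)) =
      ∑ φ ∈ S, (k5.walk φ).edges.count s(u, v) from rfl, h4]
    simp
  clear hS h1
  revert S T
  decide +kernel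

lemma k5_chi : chi (⊤ : SimpleGraph (Fin 5)) (Fin 5) = 0 := by
  unfold chi
  have h : (⊤ : SimpleGraph (Fin 5)).edgeSet.ncard = 10 := by
    rw [← SimpleGraph.coe_edgeFinset, Set.ncard_coe_finset]
    decide +kernel
  rw [h]
  simp

lemma k5_col : ¬ (⊤ : SimpleGraph (Fin 5)).Colorable 4 := by
  intro h
  have h1 := h.card_le_of_pairwise_adj (fun i : Fin 5 => i) (by intro i j hij; exact hij)
  simp at h1

end Pool.Agent.NSep
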