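import Pool.Agent.NSep.Faces

/-!
An even set of four edges is a 4-cycle.
-/

set_option autoImplicit false
set_option linter.unusedSectionVars false

open Finset

namespace Pool.Agent.NSep

variable {V : Type} [DecidableEq V] {K : SimpleGraph V}

lemma tri_even {v w w' : V} (h1 : v ≠ w) (h2 : v ≠ w') (h3 : w ≠ w') (p : V) :
    Even ((({s(v, w), s(v, w'), s(w, w')} : Finset (Sym2 V)).filter (fun e => p ∈ e)).card) := by
  have n1 : s(v, w) ∉ ({s(v, w'), s(w, w')} : Finset (Sym2 V)) := by
    simp only [Finset.mem_insert, Finset.mem_singleton, Sym2.eq_iff]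
    rintro ((⟨_, h⟩ | ⟨h, _⟩) | (⟨h, _⟩ | ⟨h, _⟩))
    · exact h3 h
    · exact h2 h
    · exact h1 h
    · exact h2 h
  have n2 : s(v, w') ∉ ({s(w, w')} : Finset (Sym2 V)) := by
    simp only [Finset.mem_singleton, Sym2.eq_iff]
    rintro (⟨h, _⟩ | ⟨h, _⟩)
    · exact h1 h
    · exact h2 h
  rw [Finset.card_filter, Finset.sum_insert n1, Finset.sum_insert n2, Finset.sum_singleton]
  simp only [Sym2.mem_iff]
  by_cases a1 : p = v
  · subst a1
    simp [h1, h2]
  · by_cases a2 : p = w
    · subst a2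
      simp [a1, h3]
    · by_cases a3 : p = w'
      · subst a3
        simp [a1, a2]
      · simp [a1, a2, a3]

lemma even_quad {B : Finset (Sym2 V)} (hB : ∀ e ∈ B, e ∈ K.edgeSet)
    (heven : ∀ x, Even (B.filter (fun e => x ∈ e)).card) (h4 : B.card = 4) {v w : V}
    (hvw : s(v, w) ∈ B) :
    ∃ w' x, w' ≠ w ∧ x ≠ v ∧ s(v, w') ∈ B ∧ s(w, x) ∈ B ∧ s(w', x) ∈ B := by
  have hother : ∀ a b, s(a, b) ∈ B → ∃ c, s(a, c) ∈ B ∧ c ≠ b := by
    intro a b hab
    have h1 : 0 < (B.filter (fun e => a ∈ e)).card :=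
      Finset.card_pos.2 ⟨s(a, b), by simp [hab]⟩
    have h2 : 1 < (B.filter (fun e => a ∈ e)).card := by
      obtain ⟨k, hk⟩ := heven a
      omega
    obtain ⟨e, he, hne⟩ := Finset.exists_mem_ne h2 s(a, b)
    rw [Finset.mem_filter] at he
    obtain ⟨c, rfl⟩ := he.2
    refine ⟨c, he.1, ?_⟩
    rintro rfl
    exact hne rfl
  have hloop : ∀ a b, s(a, b) ∈ B → a ≠ b := by
    intro a b h
    have := hB _ h
    rw [SimpleGraph.mem_edgeSet] at this
    exact this.ne
  have hv := hloop _ _ hvw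
  obtain ⟨w', hw', hne⟩ := hother v w hvw
  have hv' := hloop _ _ hw'
  have hno : s(w, w') ∉ B := by
    intro hww
    have hsub : ({s(v, w), s(v, w'), s(w, w')} : Finset (Sym2 V)) ⊆ B := by
      intro e he
      simp only [Finset.mem_insert, Finset.mem_singleton] at he
      rcases he with rfl | rfl | rfl <;> assumption
    have hc3 : ({s(v, w), s(v, w'), s(w, w')} : Finset (Sym2 V)).card = 3 := by
      rw [Finset.card_eq_three]
      refine ⟨_, _, _, ?_, ?_, ?_, rfl⟩
      · rw [Ne, Sym2.eq_iff]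
        rintro (⟨_, h⟩ | ⟨h, _⟩)
        · exact hne h.symm
        · exact hv' h
      · rw [Ne, Sym2.eq_iff]
        rintro (⟨h, _⟩ | ⟨h, _⟩)
        · exact hv h
        · exact hv' h
      · rw [Ne, Sym2.eq_iff]
        rintro (⟨h, _⟩ | ⟨h, _⟩)
        · exact hv h
        · exact hv' h
    have hc1 : (B \ {s(v, w), s(v, w'), s(w, w')}).card = 1 := by
      rw [Finset.card_sdiff_of_subset hsub]
      omega
    have h5 := (even_set (K := K) (B := B \ {s(v, w), s(v, w'), s(w, w')})
      (fun e he => hB e (Finset.mem_sdiff.1 he).1) (by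
        intro x
        have e1 := heven x
        have e2 := tri_even hv hv' hne.symm x
        have e3 : ((B \ {s(v, w), s(v, w'), s(w, w')}).filter (fun e => x ∈ e)).card +
            (({s(v, w), s(v, w'), s(w, w')} : Finset (Sym2 V)).filter (fun e => x ∈ e)).card =
            (B.filter (fun e => x ∈ e)).card := by
          rw [← Finset.card_union_of_disjoint, ← Finset.filter_union,
            Finset.sdiff_union_of_subset hsub]
          exact Finset.disjoint_filter_filter Finset.sdiff_disjoint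
        rw [← e3, Nat.even_add] at e1
        exact e1.2 e2) (Finset.card_pos.1 (by omega))).1
    omega
  obtain ⟨x, hx, hxv⟩ := hother w v (by rw [Sym2.eq_swap]; exact hvw)
  obtain ⟨x', hx', hxv'⟩ := hother w' v (by rw [Sym2.eq_swap]; exact hw')
  have hxw' : x ≠ w' := by
    rintro rfl
    exact hno hx
  have hx'w : x' ≠ w := by
    rintro rfl
    exact hno (by rw [Sym2.eq_swap]; exact hx')
  have hxw : w ≠ x := hloop _ _ hx
  have hsub : ({s(v, w), s(v, w'), s(w, x), s(w', x')} : Finset (Sym2 V)) ⊆ B := by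
    intro e he
    simp only [Finset.mem_insert, Finset.mem_singleton] at he
    rcases he with rfl | rfl | rfl | rfl <;> assumption
  have hc4 : ({s(v, w), s(v, w'), s(w, x), s(w', x')} : Finset (Sym2 V)).card = 4 := by
    rw [Finset.card_insert_of_notMem, Finset.card_insert_of_notMem,
      Finset.card_insert_of_notMem, Finset.card_singleton]
    · rw [Finset.mem_singleton, Sym2.eq_iff]
      rintro (⟨h, _⟩ | ⟨h, _⟩)
      · exact hne h.symm
      · exact hx'w h.symm
    · simp only [Finset.mem_insert, Finset.mem_singleton, Sym2.eq_iff]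
      rintro ((⟨h, _⟩ | ⟨h, _⟩) | (⟨h, _⟩ | ⟨h, _⟩))
      · exact hv h
      · exact hxv h.symm
      · exact hv' h
      · exact hxv' h.symm
    · simp only [Finset.mem_insert, Finset.mem_singleton, Sym2.eq_iff]
      rintro ((⟨_, h⟩ | ⟨h, _⟩) | (⟨h, _⟩ | ⟨h, _⟩) | (⟨h, _⟩ | ⟨h, _⟩))
      · exact hne h.symm
      · exact hv' h
      · exact hv h
      · exact hxv h.symm
      · exact hv' h
      · exact hxv' h.symm
  have hBeq : ({s(v, w), s(v, w'), s(w, x), s(w', x')} : Finset (Sym2 V)) = B :=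
    Finset.eq_of_subset_of_card_le hsub (by omega)
  obtain ⟨y, hy, hyw⟩ := hother x w (by rw [Sym2.eq_swap]; exact hx)
  have hy' := hy
  rw [← hBeq] at hy'
  simp only [Finset.mem_insert, Finset.mem_singleton, Sym2.eq_iff] at hy'
  have hxx : x = x' := by
    rcases hy' with (⟨h, _⟩ | ⟨h, _⟩) | (⟨h, _⟩ | ⟨h, _⟩) | (⟨h, _⟩ | ⟨_, h⟩) | (⟨h, _⟩ | ⟨h, _⟩)
    · exact absurd h hxv
    · exact absurd h.symm hxw
    · exact absurd h hxv
    · exact absurd h hxw'
    · exact absurd h.symm hxw
    · exact absurd h hyw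
    · exact absurd h hxw'
    · exact h
  subst hxx
  exact ⟨w', x, hne, hxv, hw', hx, hx'⟩

end Pool.Agent.NSep
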