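import Mathlib

/-!
The deletion lemma: vertices to be deleted so that no set with positive value of a supermodular
function is left; the supermodular function of a graph.
-/

set_option autoImplicit false
set_option linter.unusedSectionVars false

open Finset Module

namespace Pool.Agent.NSep

/-- If `g` is supermodular, at most `m` on all subsets of `U` and positive on the bad sets, then
the bad sets within `U` are met by at most `m` points. -/
theorem deletion {V : Type} [DecidableEq V] (g : Finset V → ℤ) (bad : Finset V → Prop)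
    (h0 : g ∅ ≤ 0) (hsup : ∀ A B, g A + g B ≤ g (A ∪ B) + g (A ∩ B))
    (hbad : ∀ W, bad W → 0 < g W) :
    ∀ (m : ℕ) (U : Finset V), (∀ A, A ⊆ U → g A ≤ m) →
      ∃ X : Finset V, X.card ≤ m ∧ ∀ W, W ⊆ U → Disjoint W X → ¬ bad W := by
  intro m
  induction m with
  | zero =>
    intro U hm
    refine ⟨∅, by simp, ?_⟩
    intro W hWU _ hb
    have h1 := hm W hWU
    have h2 := hbad W hb
    simp at h1
    omega
  | succ m ih =>
    intro U hm
    by_cases hall : ∀ A, A ⊆ U → g A ≤ m
    · obtain ⟨X, hX, h⟩ := ih U hall
      exact ⟨X, by omega, h⟩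
    · have hex : ∃ A, A ⊆ U ∧ g A = (m + 1 : ℕ) := by
        by_contra hno
        apply hall
        intro A hA
        have h1 := hm A hA
        by_contra h2
        exact hno ⟨A, hA, by push_cast at h1 ⊢; omega⟩
      obtain ⟨A, ⟨hAU, hAg⟩, hmin⟩ := exists_minimal_card hex
      have hne : A.Nonempty := by
        rw [Finset.nonempty_iff_ne_empty]
        rintro rfl
        rw [hAg] at h0
        push_cast at h0
        omega
      obtain ⟨v, hv⟩ := hne
      have hU' : ∀ B, B ⊆ U.erase v → g B ≤ m := by
        intro B hB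
        by_contra hlt
        have hBU : B ⊆ U := hB.trans (Finset.erase_subset _ _)
        have h1 := hm B hBU
        have h2 := hm (A ∪ B) (Finset.union_subset hAU hBU)
        have h3 := hm (A ∩ B) (Finset.inter_subset_left.trans hAU)
        have h4 := hsup A B
        have h5 : g (A ∩ B) = (m + 1 : ℕ) := by
          push_cast at *
          omega
        have h6 := hmin (A ∩ B) ⟨Finset.inter_subset_left.trans hAU, h5⟩
        have h7 : A ∩ B = A := Finset.eq_of_subset_of_card_le Finset.inter_subset_left h6
        have h8 : v ∈ A ∩ B := by rw [h7]; exact hv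
        have h9 := hB (Finset.mem_inter.1 h8).2
        exact (Finset.notMem_erase v U) h9
      obtain ⟨X, hX, h⟩ := ih (U.erase v) hU'
      refine ⟨insert v X, (Finset.card_insert_le _ _).trans (by omega), ?_⟩
      intro W hW hdis
      rw [Finset.disjoint_insert_right] at hdis
      apply h W _ hdis.2
      intro w hw
      rw [Finset.mem_erase]
      exact ⟨fun h => hdis.1 (h ▸ hw), hW hw⟩
where
  exists_minimal_card {V : Type} {p : Finset V → Prop} (h : ∃ A, p A) :
      ∃ A, p A ∧ ∀ B, p B → A.card ≤ B.card := by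
    obtain ⟨A, hA⟩ := h
    classical
    have hex : ∃ n, ∃ A, p A ∧ A.card = n := ⟨_, A, hA, rfl⟩
    obtain ⟨B, hB, hc⟩ := Nat.find_spec hex
    refine ⟨B, hB, ?_⟩
    intro D hD
    rw [hc]
    exact Nat.find_min' hex ⟨D, hD, rfl⟩

section graph

variable {V : Type} [Fintype V] [DecidableEq V]

/-- functions which are constant along the edges of `H` -/
def dom (H : SimpleGraph V) : Submodule (ZMod 2) (V → ZMod 2) where
  carrier := {g | ∀ u v, H.Adj u v → g u = g v}
  add_mem' := by
    intro a b ha hb u v huv
    simp only [Pi.add_apply]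
    rw [ha u v huv, hb u v huv]
  zero_mem' := by
    intro u v _
    rfl
  smul_mem' := by
    intro c a ha u v huv
    simp only [Pi.smul_apply]
    rw [ha u v huv]

/-- the edges of `G` within `A` -/
def sub (G : SimpleGraph V) (A : Finset V) : SimpleGraph V where
  Adj u v := G.Adj u v ∧ u ∈ A ∧ v ∈ A
  symm := by
    constructor
    rintro u v ⟨h1, h2, h3⟩
    exact ⟨h1.symm, h3, h2⟩
  loopless := ⟨fun u h => h.1.ne rfl⟩

lemma sub_le (G : SimpleGraph V) (A : Finset V) : sub G A ≤ G := fun _ _ h => h.1

lemma dom_le (H : SimpleGraph V) (P : Finset V)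
    (hP : ∀ p ∈ P, ∀ q ∈ P, H.Reachable p q → p = q) : P.card ≤ finrank (ZMod 2) (dom H) := by
  classical
  let ev : dom H →ₗ[ZMod 2] (P → ZMod 2) :=
    LinearMap.pi fun p => (LinearMap.proj p.1) ∘ₗ (dom H).subtype
  have hsurj : LinearMap.range ev = ⊤ := by
    rw [LinearMap.range_eq_top]
    intro h
    refine ⟨⟨fun v => ∑ p : P, if H.Reachable p.1 v then h p else 0, ?_⟩, ?_⟩
    · intro u v huv
      apply Finset.sum_congr rfl
      intro p _
      have : H.Reachable p.1 u ↔ H.Reachable p.1 v :=
        ⟨fun h1 => h1.trans huv.reachable, fun h1 => h1.trans huv.symm.reachable⟩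
      simp only [this]
    · ext q
      change ∑ p : P, (if H.Reachable p.1 q.1 then h p else 0) = h q
      rw [Finset.sum_eq_single q]
      · rw [if_pos (SimpleGraph.Reachable.refl _)]
      · intro p _ hpq
        rw [if_neg]
        intro h1
        exact hpq (Subtype.ext (hP p.1 p.2 q.1 q.2 h1))
      · intro h1
        exact absurd (Finset.mem_univ _) h1
  have h1 := LinearMap.finrank_range_le ev
  rw [hsurj, finrank_top, Module.finrank_fintype_fun_eq_card, Fintype.card_coe] at h1
  exact h1

lemma dom_le_card (H : SimpleGraph V) : finrank (ZMod 2) (dom H) ≤ Fintype.card V := by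
  have h := Submodule.finrank_le (dom H)
  rwa [Module.finrank_fintype_fun_eq_card] at h

/-- dimension of `dom` for a nonempty set -/
lemma dom_sub (G : SimpleGraph V) {A : Finset V} (hA : A.Nonempty) :
    Fintype.card V + 1 ≤ finrank (ZMod 2) (dom (sub G A)) + A.card := by
  obtain ⟨a, ha⟩ := hA
  have hiso : ∀ p, p ∉ A → ∀ q, (sub G A).Reachable p q → p = q := by
    intro p hp q hpq
    obtain ⟨w⟩ := hpq
    cases w with
    | nil => rfl
    | cons h _ => exact absurd h.2.1 hp
  have h1 := dom_le (sub G A) (insert a (univ \ A)) (by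
    intro p hp q hq hpq
    rw [Finset.mem_insert, Finset.mem_sdiff] at hp hq
    rcases hp with rfl | hp
    · rcases hq with rfl | hq
      · rfl
      · exact (hiso q hq.2 p hpq.symm).symm
    · exact hiso p hp.2 q hpq)
  rw [Finset.card_insert_of_notMem (by simp [ha]), Finset.card_sdiff_of_subset
    (Finset.subset_univ _), Finset.card_univ] at h1
  have h2 := Finset.card_le_univ A
  omega

/-- cycle rank of `G[A]` minus the number of vertices of `A` -/
noncomputable def gval (G : SimpleGraph V) (A : Finset V) : ℤ :=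
  ((sub G A).edgeSet.ncard : ℤ) + (finrank (ZMod 2) (dom (sub G A)) : ℤ) - (A.card : ℤ) -
    (Fintype.card V : ℤ)

lemma gval_empty (G : SimpleGraph V) : gval G ∅ ≤ 0 := by
  unfold gval
  have h1 : (sub G ∅).edgeSet = ∅ := by
    ext e
    induction e with
    | _ u v =>
      rw [SimpleGraph.mem_edgeSet]
      simp [sub]
  have h2 := dom_le_card (sub G ∅)
  rw [h1, Set.ncard_empty]
  simp
  omega

/-- the function of a graph is supermodular -/
lemma gval_sup (G : SimpleGraph V) (A B : Finset V) :
    gval G A + gval G B ≤ gval G (A ∪ B) + gval G (A ∩ B) := by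
  classical
  set EA := (sub G A).edgeSet with hEA
  set EB := (sub G B).edgeSet with hEB
  set EU := (sub G (A ∪ B)).edgeSet with hEU
  set EI := (sub G (A ∩ B)).edgeSet with hEI
  have hI : EI = EA ∩ EB := by
    ext e
    induction e with
    | _ u v =>
      simp only [hEI, hEA, hEB, Set.mem_inter_iff, SimpleGraph.mem_edgeSet, sub,
        Finset.mem_inter]
      tauto
  have hU : EA ∪ EB ⊆ EU := by
    intro e he
    induction e with
    | _ u v =>
      simp only [hEU, hEA, hEB, Set.mem_union, SimpleGraph.mem_edgeSet, sub,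
        Finset.mem_union] at he ⊢
      tauto
  set Cr := (EU \ (EA ∪ EB)) with hCr
  have c1 : EU.ncard = (EA ∪ EB).ncard + Cr.ncard := by
    rw [hCr]
    have := Set.ncard_sdiff_add_ncard_of_subset hU (Set.toFinite _)
    omega
  have c2 : (EA ∪ EB).ncard + (EA ∩ EB).ncard = EA.ncard + EB.ncard :=
    Set.ncard_union_add_ncard_inter _ _
  -- dimensions
  have d1 := Submodule.finrank_sup_add_finrank_inf_eq (dom (sub G A)) (dom (sub G B))
  have d2 : finrank (ZMod 2) ↥(dom (sub G A) ⊔ dom (sub G B)) ≤
      finrank (ZMod 2) (dom (sub G (A ∩ B))) := by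
    apply Submodule.finrank_mono
    apply sup_le
    · intro g hg u v huv
      exact hg u v ⟨huv.1, (Finset.mem_inter.1 huv.2.1).1, (Finset.mem_inter.1 huv.2.2).1⟩
    · intro g hg u v huv
      exact hg u v ⟨huv.1, (Finset.mem_inter.1 huv.2.1).2, (Finset.mem_inter.1 huv.2.2).2⟩
  have d3 : finrank (ZMod 2) ↥(dom (sub G A) ⊓ dom (sub G B)) ≤
      finrank (ZMod 2) (dom (sub G (A ∪ B))) + Cr.ncard := by
    have : Fintype Cr := Fintype.ofFinite _
    let D := dom (sub G A) ⊓ dom (sub G B)
    let sm : Sym2 V → (V → ZMod 2) →ₗ[ZMod 2] ZMod 2 := fun e =>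
      ∑ x, (if x ∈ e then (1 : ZMod 2) else 0) • LinearMap.proj x
    let T : D →ₗ[ZMod 2] (Cr → ZMod 2) := LinearMap.pi fun e => (sm e.1) ∘ₗ D.subtype
    have hrn := LinearMap.finrank_range_add_finrank_ker T
    have hr := Submodule.finrank_le (LinearMap.range T)
    rw [Module.finrank_fintype_fun_eq_card, ← Nat.card_eq_fintype_card] at hr
    have hk : finrank (ZMod 2) (LinearMap.ker T) ≤ finrank (ZMod 2) (dom (sub G (A ∪ B))) := by
      have hmap : ∀ x : LinearMap.ker T, (x.1.1 : V → ZMod 2) ∈ dom (sub G (A ∪ B)) := by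
        rintro ⟨⟨g, hgA, hgB⟩, hk⟩ u v huv
        rw [LinearMap.mem_ker] at hk
        change g u = g v
        by_cases h1 : (sub G A).Adj u v
        · exact hgA u v h1
        by_cases h2 : (sub G B).Adj u v
        · exact hgB u v h2
        have hmem : s(u, v) ∈ Cr := by
          rw [hCr, Set.mem_sdiff, hEU, SimpleGraph.mem_edgeSet, Set.mem_union, hEA, hEB,
            SimpleGraph.mem_edgeSet, SimpleGraph.mem_edgeSet]
          exact ⟨huv, by tauto⟩
        have h3 : (T ⟨g, hgA, hgB⟩) ⟨s(u, v), hmem⟩ = 0 := by rw [hk]; rfl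
        have h4 : (T ⟨g, hgA, hgB⟩) ⟨s(u, v), hmem⟩ =
            ∑ x, (if x ∈ s(u, v) then (1 : ZMod 2) else 0) * g x := by
          change (∑ x, (if x ∈ s(u, v) then (1 : ZMod 2) else 0) • LinearMap.proj x :
            (V → ZMod 2) →ₗ[ZMod 2] ZMod 2) g = _
          rw [LinearMap.sum_apply]
          rfl
        have h5 : ∑ x, (if x ∈ s(u, v) then (1 : ZMod 2) else 0) * g x = g u + g v := by
          have h6 : ∀ x, (if x ∈ s(u, v) then (1 : ZMod 2) else 0) * g x =
              if x ∈ s(u, v) then g x else 0 := by
            intro x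
            split_ifs <;> simp
          rw [Finset.sum_congr rfl (fun x _ => h6 x), ← Finset.sum_filter]
          have h7 : (Finset.univ.filter fun x => x ∈ s(u, v)) = {u, v} := by
            ext x
            simp
          rw [h7, Finset.sum_pair huv.1.ne]
        rw [h4, h5] at h3
        revert h3
        generalize g u = a
        generalize g v = b
        revert a b
        decide
      let ι : LinearMap.ker T →ₗ[ZMod 2] dom (sub G (A ∪ B)) :=
        LinearMap.codRestrict _ (D.subtype ∘ₗ (LinearMap.ker T).subtype) hmap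
      have hinj : Function.Injective ι := by
        intro x y hxy
        have h1 : (ι x).1 = (ι y).1 := by rw [hxy]
        apply Subtype.ext
        apply Subtype.ext
        exact h1
      exact LinearMap.finrank_le_finrank_of_injective hinj
    have hcard : Nat.card Cr = Cr.ncard := rfl
    change finrank (ZMod 2) D ≤ _
    omega
  have d4 : (A ∪ B).card + (A ∩ B).card = A.card + B.card := Finset.card_union_add_card_inter A B
  unfold gval
  rw [← hEA, ← hEB, ← hEU, ← hEI, hI]
  omega

end graph

end Pool.Agent.NSep
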