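import Pool.Agent.NSep.Def
import Pool.Agent.NSep.Sup

/-!
The Euler inequality for the faces of a subgraph, by linear algebra over the field with two
elements.
-/

set_option autoImplicit false
set_option linter.unusedSectionVars false

open Finset Module

namespace Pool.Agent.NSep

variable {V F : Type} [Fintype V] [DecidableEq V] [Fintype F] [DecidableEq F]
variable {K : SimpleGraph V} (C : Cellulation K F) [DecidableRel K.Adj]

lemma orth_dim {n : Type} [Fintype n] [DecidableEq n] (U W : Submodule (ZMod 2) (n → ZMod 2))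
    (h : ∀ u ∈ U, ∀ w ∈ W, u ⬝ᵥ w = 0) : finrank (ZMod 2) U + finrank (ZMod 2) W ≤ Fintype.card n := by
  let T : (n → ZMod 2) →ₗ[ZMod 2] (Module.Dual (ZMod 2) W) :=
    LinearMap.mk₂ (ZMod 2) (fun (u : n → ZMod 2) (w : W) => u ⬝ᵥ (w : n → ZMod 2))
      (fun a b c => by simp [add_dotProduct])
      (fun a b c => by simp [smul_dotProduct])
      (fun a b c => by simp [dotProduct_add])
      (fun a b c => by simp [dotProduct_smul])
  have hU : U ≤ LinearMap.ker T := by
    intro u hu
    rw [LinearMap.mem_ker]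
    ext w
    exact h u hu w w.2
  have hsurj : LinearMap.range T = ⊤ := by
    rw [LinearMap.range_eq_top]
    intro ψ
    obtain ⟨Ψ, hΨ⟩ := LinearMap.exists_extend (p := W) ψ
    refine ⟨fun i => Ψ (Pi.single i 1), ?_⟩
    ext w
    have h1 : (fun i => Ψ (Pi.single i 1)) ⬝ᵥ (w : n → ZMod 2) = Ψ (w : n → ZMod 2) := by
      conv_rhs => rw [← Finset.univ_sum_single (w : n → ZMod 2)]
      rw [map_sum]
      unfold dotProduct
      apply Finset.sum_congr rfl
      intro i _
      have h2 : (Pi.single i ((w : n → ZMod 2) i) : n → ZMod 2) =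
          ((w : n → ZMod 2) i) • (Pi.single i (1 : ZMod 2)) := by
        rw [← Pi.single_smul, smul_eq_mul, mul_one]
      rw [h2, map_smul, smul_eq_mul, mul_comm]
    change (fun i => Ψ (Pi.single i 1)) ⬝ᵥ (w : n → ZMod 2) = ψ w
    rw [h1, ← hΨ]
    rfl
  have h1 := LinearMap.finrank_range_add_finrank_ker T
  rw [hsurj, finrank_top, Subspace.dual_finrank_eq, Module.finrank_fintype_fun_eq_card] at h1
  have h2 := Submodule.finrank_mono hU
  omega

/-- two faces are joined through an edge outside `H` -/
def rel (H : SimpleGraph V) [DecidableRel H.Adj] (φ ψ : F) : Prop :=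
  ∃ e ∈ K.edgeFinset \ H.edgeFinset, 0 < C.cnt φ e ∧ 0 < C.cnt ψ e

lemma cnt_two {e : Sym2 V} (he : e ∈ K.edgeFinset) {φ ψ : F} (hne : φ ≠ ψ)
    (h1 : 0 < C.cnt φ e) (h2 : 0 < C.cnt ψ e) :
    C.cnt φ e = 1 ∧ C.cnt ψ e = 1 ∧ ∀ χ, χ ≠ φ → χ ≠ ψ → C.cnt χ e = 0 := by
  have hs := cnt_sum C he
  have h3 : ∑ χ ∈ ({φ, ψ} : Finset F), C.cnt χ e ≤ ∑ χ, C.cnt χ e :=
    Finset.sum_le_sum_of_subset (Finset.subset_univ _)
  rw [Finset.sum_pair hne] at h3
  refine ⟨by omega, by omega, ?_⟩
  intro χ hχ1 hχ2
  have h4 : ∑ χ' ∈ ({χ, φ, ψ} : Finset F), C.cnt χ' e ≤ ∑ χ, C.cnt χ e :=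
    Finset.sum_le_sum_of_subset (Finset.subset_univ _)
  rw [Finset.sum_insert (by simp [hχ1, hχ2]), Finset.sum_pair hne] at h4
  omega

lemma zmod_two_eq {a b : ZMod 2} (h : a + b = 0) : a = b := by
  revert a b
  decide

/-- **Euler inequality.** -/
theorem euler (hK : K.Connected) (H : SimpleGraph V) [DecidableRel H.Adj] (hH : H ≤ K) :
    Fintype.card F + H.edgeFinset.card + finrank (ZMod 2) (dom H) ≤
      K.edgeFinset.card + 1 + Nat.card (Quot (rel C H)) := by
  classical
  have hsub : H.edgeFinset ⊆ K.edgeFinset := SimpleGraph.edgeFinset_mono hH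
  set Ec := {e // e ∈ K.edgeFinset \ H.edgeFinset} with hEc
  have hcardEc : Fintype.card Ec = K.edgeFinset.card - H.edgeFinset.card := by
    have h0 : Fintype.card {e // e ∈ K.edgeFinset \ H.edgeFinset} =
        K.edgeFinset.card - H.edgeFinset.card := by
      rw [Fintype.card_coe, Finset.card_sdiff_of_subset hsub]
    exact h0
  have hcardle : H.edgeFinset.card ≤ K.edgeFinset.card := Finset.card_le_card hsub
  set M : Matrix Ec F (ZMod 2) := fun e φ => (C.cnt φ e.1 : ZMod 2) with hM
  set N : Matrix Ec V (ZMod 2) := fun e v => if v ∈ e.1 then 1 else 0 with hN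
  set L := M.mulVecLin with hL
  set Cm := N.mulVecLin ∘ₗ (dom H).subtype with hCm
  -- an edge has two ends
  have hends : ∀ (g : V → ZMod 2) (u v : V), u ≠ v →
      (∑ x, if x ∈ s(u, v) then g x else 0) = g u + g v := by
    intro g u v huv
    rw [← Finset.sum_filter]
    have : (Finset.univ.filter fun x => x ∈ s(u, v)) = {u, v} := by
      ext x
      simp
    rw [this, Finset.sum_pair huv]
  -- orthogonality
  have horth : ∀ u ∈ LinearMap.range L, ∀ w ∈ LinearMap.range Cm, u ⬝ᵥ w = 0 := by
    rintro _ ⟨S, rfl⟩ _ ⟨g, rfl⟩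
    have e1 : ∀ e : Ec, (L S) e = ∑ φ, (C.cnt φ e.1 : ZMod 2) * S φ := by
      intro e
      rfl
    have e2 : ∀ e : Ec, (Cm g) e = ∑ x, if x ∈ e.1 then (g : V → ZMod 2) x else 0 := by
      intro e
      change ∑ x, (if x ∈ e.1 then (1 : ZMod 2) else 0) * (g : V → ZMod 2) x = _
      apply Finset.sum_congr rfl
      intro x _
      split_ifs <;> simp
    unfold dotProduct
    set bd : Sym2 V → ZMod 2 := fun e => ∑ φ, (C.cnt φ e : ZMod 2) * S φ with hbd
    set cg : Sym2 V → ZMod 2 := fun e => ∑ x, if x ∈ e then (g : V → ZMod 2) x else 0 with hcg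
    have h1 : ∑ e : Ec, (L S) e * (Cm g) e = ∑ e ∈ K.edgeFinset \ H.edgeFinset, bd e * cg e := by
      rw [← Finset.sum_coe_sort (K.edgeFinset \ H.edgeFinset) (fun e => bd e * cg e)]
      apply Finset.sum_congr rfl
      intro e _
      rw [e1, e2]
    rw [h1]
    have h2 : ∑ e ∈ H.edgeFinset, bd e * cg e = 0 := by
      apply Finset.sum_eq_zero
      intro e he
      induction e with
      | _ u v =>
        rw [SimpleGraph.mem_edgeFinset, SimpleGraph.mem_edgeSet] at he
        have h3 : cg s(u, v) = 0 := by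
          rw [hcg]
          simp only
          rw [hends _ u v he.ne, g.2 u v he]
          exact CharTwo.add_self_eq_zero _
        rw [h3, mul_zero]
    have h3 : ∑ e ∈ K.edgeFinset, bd e * cg e = 0 := by
      have h4 : ∀ e ∈ K.edgeFinset, bd e * cg e =
          ∑ x, ∑ φ, if x ∈ e then (C.cnt φ e : ZMod 2) * S φ * (g : V → ZMod 2) x else 0 := by
        intro e _
        rw [hbd, hcg]
        simp only
        rw [Finset.mul_sum]
        apply Finset.sum_congr rfl
        intro x _
        split_ifs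
        · rw [Finset.sum_mul]
        · simp
      rw [Finset.sum_congr rfl h4, Finset.sum_comm]
      apply Finset.sum_eq_zero
      intro x _
      rw [Finset.sum_comm]
      apply Finset.sum_eq_zero
      intro φ _
      rw [← Finset.sum_filter]
      have h5 := cnt_parity C φ x
      have h6 : ((∑ e ∈ K.edgeFinset.filter (fun e => x ∈ e), C.cnt φ e : ℕ) : ZMod 2) = 0 := by
        rw [ZMod.natCast_eq_zero_iff]
        exact even_iff_two_dvd.1 h5
      push_cast at h6
      calc ∑ e ∈ K.edgeFinset.filter (fun e => x ∈ e),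
            (C.cnt φ e : ZMod 2) * S φ * (g : V → ZMod 2) x
          = (∑ e ∈ K.edgeFinset.filter (fun e => x ∈ e), (C.cnt φ e : ZMod 2)) *
              (S φ * (g : V → ZMod 2) x) := by
            rw [Finset.sum_mul]
            apply Finset.sum_congr rfl
            intro e _
            ring
        _ = 0 := by rw [h6, zero_mul]
    have h4 := Finset.sum_sdiff (f := fun e => bd e * cg e) hsub
    rw [h2, add_zero, h3] at h4
    exact h4
  have hdim := orth_dim _ _ horth
  rw [hcardEc] at hdim
  -- the kernel of L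
  let _ : Fintype (Quot (rel C H)) := Fintype.ofFinite _
  have hkerL : finrank (ZMod 2) (LinearMap.ker L) ≤ Nat.card (Quot (rel C H)) := by
    set Φ := LinearMap.funLeft (ZMod 2) (ZMod 2) (Quot.mk (rel C H)) with hΦ
    have h1 : LinearMap.ker L ≤ LinearMap.range Φ := by
      intro S hS
      rw [LinearMap.mem_ker] at hS
      have hconst : ∀ φ ψ, rel C H φ ψ → S φ = S ψ := by
        rintro φ ψ ⟨e, he, h1, h2⟩
        by_cases hne : φ = ψ
        · rw [hne]
        have heK : e ∈ K.edgeFinset := (Finset.mem_sdiff.1 he).1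
        obtain ⟨c1, c2, c3⟩ := cnt_two C heK hne h1 h2
        have h3 : (L S) ⟨e, he⟩ = 0 := by rw [hS]; rfl
        have h4 : (L S) ⟨e, he⟩ = ∑ χ, (C.cnt χ e : ZMod 2) * S χ := rfl
        rw [h4, Finset.sum_eq_add φ ψ hne] at h3
        · rw [c1, c2] at h3
          simp only [Nat.cast_one, one_mul] at h3
          exact zmod_two_eq h3
        · intro χ _ hχ
          rw [c3 χ hχ.1 hχ.2]
          simp
        · intro h5
          exact absurd (Finset.mem_univ _) h5
        · intro h5
          exact absurd (Finset.mem_univ _) h5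
      refine ⟨Quot.lift S hconst, ?_⟩
      ext φ
      rfl
    calc finrank (ZMod 2) (LinearMap.ker L) ≤ finrank (ZMod 2) (LinearMap.range Φ) :=
          Submodule.finrank_mono h1
      _ ≤ finrank (ZMod 2) (Quot (rel C H) → ZMod 2) := LinearMap.finrank_range_le Φ
      _ = Nat.card (Quot (rel C H)) := by
          rw [Module.finrank_fintype_fun_eq_card, Nat.card_eq_fintype_card]
  have hrnL := LinearMap.finrank_range_add_finrank_ker L
  rw [Module.finrank_fintype_fun_eq_card] at hrnL
  -- the kernel of Cm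
  obtain ⟨v0⟩ := hK.nonempty
  have hkerC : finrank (ZMod 2) (LinearMap.ker Cm) ≤ 1 := by
    let ev : LinearMap.ker Cm →ₗ[ZMod 2] ZMod 2 :=
      (LinearMap.proj v0) ∘ₗ (dom H).subtype ∘ₗ (LinearMap.ker Cm).subtype
    have hinj : Function.Injective ev := by
      rw [← LinearMap.ker_eq_bot, LinearMap.ker_eq_bot']
      rintro ⟨⟨g, hg⟩, hgk⟩ h0
      rw [LinearMap.mem_ker] at hgk
      have h00 : g v0 = 0 := h0
      have hadj : ∀ u v, K.Adj u v → g u = g v := by
        intro u v huv
        by_cases hHuv : H.Adj u v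
        · exact hg u v hHuv
        · have hmem : s(u, v) ∈ K.edgeFinset \ H.edgeFinset := by
            rw [Finset.mem_sdiff, SimpleGraph.mem_edgeFinset, SimpleGraph.mem_edgeFinset,
              SimpleGraph.mem_edgeSet, SimpleGraph.mem_edgeSet]
            exact ⟨huv, hHuv⟩
          have h1 : (Cm ⟨g, hg⟩) ⟨s(u, v), hmem⟩ = 0 := by rw [hgk]; rfl
          have h2 : (Cm ⟨g, hg⟩) ⟨s(u, v), hmem⟩ = ∑ x, if x ∈ s(u, v) then g x else 0 := by
            change ∑ x, (if x ∈ s(u, v) then (1 : ZMod 2) else 0) * g x = _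
            apply Finset.sum_congr rfl
            intro x _
            split_ifs <;> simp
          rw [h2, hends g u v huv.ne] at h1
          exact zmod_two_eq h1
      have hall : ∀ v, g v = 0 := by
        intro v
        obtain ⟨w⟩ := hK.preconnected v v0
        clear hgk h0
        induction w with
        | nil => exact h00
        | cons h _ ih => rw [hadj _ _ h]; exact ih h00
      apply Subtype.ext
      apply Subtype.ext
      funext v
      exact hall v
    have := LinearMap.finrank_le_finrank_of_injective hinj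
    simpa using this
  have hrnC := LinearMap.finrank_range_add_finrank_ker Cm
  omega

end Pool.Agent.NSep
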