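import Pool.Agent.NSep.Bad

/-!
The classes of faces if there are at least three of them: every boundary has at least three
edges, and the boundaries with exactly three edges are different triangles.
-/

set_option autoImplicit false
set_option linter.unusedSectionVars false

open Finset

namespace Pool.Agent.NSep

variable {V F : Type} [Fintype V] [DecidableEq V] [Fintype F] [DecidableEq F]
variable {K : SimpleGraph V} (C : Cellulation K F) [DecidableRel K.Adj]
variable (H : SimpleGraph V) [DecidableRel H.Adj] [Fintype (Quot (rel C H))]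

theorem classes (hn : 2 < Fintype.card (Quot (rel C H))) :
    (∀ q : Quot (rel C H), 3 ≤ (bq C H q).card) ∧
    ∃ T : Quot (rel C H) → Finset V,
      (∀ q, (bq C H q).card = 3 → (T q).card = 3 ∧
        (∀ u ∈ T q, ∀ v ∈ T q, u ≠ v → H.Adj u v) ∧ C.Side (T q) (cls C H q)) ∧
      ∀ q q', (bq C H q).card = 3 → (bq C H q').card = 3 → T q = T q' → q = q' := by
  classical
  have hne : ∀ q, (cls C H q).Nonempty := by
    intro q
    obtain ⟨φ, rfl⟩ := Quot.exists_rep q
    exact ⟨φ, (mem_cls C).2 rfl⟩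
  have hthird : ∀ q q', cls C H q ∪ cls C H q' ≠ univ := by
    intro q q' h
    have h1 : ({q, q'} : Finset (Quot (rel C H))).card ≤ 2 := Finset.card_le_two
    have h2 : ∃ r, r ∉ ({q, q'} : Finset (Quot (rel C H))) := by
      by_contra h3
      have h4 : ({q, q'} : Finset (Quot (rel C H))) = univ :=
        Finset.eq_univ_iff_forall.2 (fun r => by
          by_contra h5
          exact h3 ⟨r, h5⟩)
      rw [h4, Finset.card_univ] at h1
      omega
    obtain ⟨r, hr⟩ := h2
    obtain ⟨φ, hφ⟩ := hne r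
    have h3 : φ ∈ cls C H q ∪ cls C H q' := by rw [h]; exact Finset.mem_univ _
    rw [mem_cls] at hφ
    rw [Finset.mem_union, mem_cls, mem_cls, hφ] at h3
    apply hr
    simpa using h3
  have hnu : ∀ q, cls C H q ≠ univ := by
    intro q h
    exact hthird q q (by rw [Finset.union_self]; exact h)
  have hbK : ∀ q, ∀ e ∈ bd C (cls C H q), e ∈ K.edgeSet := by
    intro q e he
    unfold bd at he
    rw [Finset.mem_filter, SimpleGraph.mem_edgeFinset] at he
    exact he.1
  have heven := fun q => even_set (hbK q) (bd_even C (cls C H q)) (bd_nonempty C (hne q) (hnu q))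
  refine ⟨fun q => (heven q).1, ?_⟩
  have h1 : ∀ q : Quot (rel C H), ∃ T : Finset V, (bd C (cls C H q)).card = 3 →
      T.card = 3 ∧ (∀ u ∈ T, ∀ v ∈ T, u ≠ v → s(u, v) ∈ bd C (cls C H q)) ∧
      ∀ e ∈ K.edgeSet, (e ∈ bd C (cls C H q) ↔ ∀ v ∈ e, v ∈ T) := by
    intro q
    by_cases hq : (bd C (cls C H q)).card = 3
    · obtain ⟨T, hT⟩ := (heven q).2 hq
      exact ⟨T, fun _ => hT⟩
    · exact ⟨∅, fun h => absurd h hq⟩
  choose T hT using h1
  have hdisj : ∀ q q', q ≠ q' → Disjoint (cls C H q) (cls C H q') := by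
    intro q q' hqq
    rw [Finset.disjoint_left]
    intro φ h1 h2
    rw [mem_cls] at h1 h2
    exact hqq (h1.symm.trans h2)
  have hodd : ∀ q, ∀ e ∈ K.edgeSet,
      (Odd (∑ φ ∈ cls C H q, (C.walk φ).edges.count e) ↔ e ∈ bd C (cls C H q)) := by
    intro q e he
    unfold bd
    rw [Finset.mem_filter, SimpleGraph.mem_edgeFinset]
    exact ⟨fun h => ⟨he, h⟩, fun h => h.2⟩
  refine ⟨T, ?_, ?_⟩
  · intro q hq
    obtain ⟨t1, t2, t3⟩ := hT q hq
    refine ⟨t1, ?_, ?_⟩
    · intro u hu v hv huv
      have h2 := cls_bd C H _ (t2 u hu v hv huv)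
      rwa [SimpleGraph.mem_edgeFinset, SimpleGraph.mem_edgeSet] at h2
    · intro e he
      rw [hodd _ e he]
      exact t3 e he
  · intro q q' hq hq' hqq
    by_contra hne'
    obtain ⟨_, _, t3⟩ := hT q hq
    obtain ⟨_, _, t3'⟩ := hT q' hq'
    apply hthird q q'
    apply C.conn
    · exact (hne q).mono Finset.subset_union_left
    · intro e he
      rw [Finset.sum_union (hdisj q q' hne'), Nat.even_add', hodd q e he, hodd q' e he,
        t3 e he, t3' e he, hqq]

end Pool.Agent.NSep
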